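import Mathlib

/-!
# Graph products and chromatic numbers: basic tools

Finite graphs, the arc graph of the complete symmetric digraph, its lower bound for the chromatic
number, its random pieces of bounded chromatic number, a covering lemma, and an assembling lemma.
-/

namespace Pool.Agent.GProd

/-- Finite graphs with at least one vertex. -/
structure FinGraph where
  V : Type
  [fin : Fintype V]
  [ne : Nonempty V]
  G : SimpleGraph V

attribute [instance] FinGraph.fin FinGraph.ne

/-- the chromatic number of a finite graph -/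
noncomputable def FinGraph.chi (X : FinGraph) : ℕ := X.G.chromaticNumber.toNat

/-- A graph product `P` is `c`-multiplicative if
`c χ(X) χ(Y) ≤ χ(X * Y) ≤ χ(X) χ(Y)` for all finite graphs `X`, `Y`. -/
def Multiplicative (c : ℝ) (P : FinGraph → FinGraph → FinGraph) : Prop :=
  ∀ X Y, c * (X.chi * Y.chi) ≤ (P X Y).chi ∧ (P X Y).chi ≤ X.chi * Y.chi

theorem FinGraph.ne_top (X : FinGraph) : X.G.chromaticNumber ≠ ⊤ :=
  SimpleGraph.chromaticNumber_ne_top_iff_exists.2 ⟨_, X.G.colorable_of_fintype⟩

theorem FinGraph.coe_chi (X : FinGraph) : (X.chi : ℕ∞) = X.G.chromaticNumber :=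
  ENat.natCast_toNat X.ne_top

theorem FinGraph.colorable (X : FinGraph) : X.G.Colorable X.chi :=
  SimpleGraph.chromaticNumber_le_iff_colorable.1 X.coe_chi.ge

theorem FinGraph.chi_le {X : FinGraph} {n : ℕ} (h : X.G.Colorable n) : X.chi ≤ n := by
  have h1 := SimpleGraph.chromaticNumber_le_iff_colorable.2 h
  rw [← X.coe_chi] at h1
  exact_mod_cast h1

theorem FinGraph.le_chi {X : FinGraph} {n : ℕ} (h : ∀ m, X.G.Colorable m → n ≤ m) : n ≤ X.chi :=
  h _ X.colorable

theorem FinGraph.chi_mono {X Y : FinGraph} (f : X.G →g Y.G) : X.chi ≤ Y.chi :=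
  FinGraph.chi_le (SimpleGraph.Colorable.of_hom f Y.colorable)

/-! ### The arc graph -/

/-- The underlying graph of the arc digraph of the complete symmetric digraph on `N` points
(pairs `(i, i)` are isolated vertices). -/
def arcG (N : ℕ) : SimpleGraph (Fin N × Fin N) where
  Adj p q := p.1 ≠ p.2 ∧ q.1 ≠ q.2 ∧ (p.2 = q.1 ∨ q.2 = p.1)
  symm := ⟨fun p q h => ⟨h.2.1, h.1, h.2.2.symm⟩⟩
  loopless := ⟨fun p h => by
    rcases h.2.2 with h1 | h1
    · exact h.1 h1.symm
    · exact h.1 h1.symm⟩

theorem arcG_lower {N k : ℕ} (h : (arcG N).Colorable k) : N ≤ 2 ^ k := by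
  classical
  obtain ⟨f⟩ := h
  let F : Fin N → Finset (Fin k) := fun i =>
    (Finset.univ.filter fun j : Fin N => i ≠ j).image fun j => f (i, j)
  have hF : Function.Injective F := by
    intro i j hij
    by_contra hne
    have h1 : f (i, j) ∈ F i := Finset.mem_image.2 ⟨j, by simpa using hne, rfl⟩
    rw [hij] at h1
    obtain ⟨l, hl, hl'⟩ := Finset.mem_image.1 h1
    have hjl : j ≠ l := by simpa using hl
    exact f.valid (show (arcG N).Adj (j, l) (i, j) from ⟨hjl, hne, Or.inr rfl⟩) hl'
  have h2 := Fintype.card_le_of_injective F hF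
  simpa using h2

/-- the arcs whose ends are distinguished by `A` (and all degenerate pairs) -/
def cut {N ℓ : ℕ} (A : Fin N → Fin ℓ → Bool) : Set (Fin N × Fin N) :=
  {p | p.1 ≠ p.2 → A p.1 ≠ A p.2}

/-- a colouring of the arcs in `cut A` -/
theorem exists_cut_colour {N ℓ : ℕ} (A : Fin N → Fin (ℓ + 1) → Bool) :
    ∃ f : Fin N × Fin N → Fin (ℓ + 1) × Bool,
      ∀ p ∈ cut A, ∀ q ∈ cut A, (arcG N).Adj p q → f p ≠ f q := by
  classical
  have key : ∀ p : Fin N × Fin N, ∃ b : Fin (ℓ + 1), A p.1 ≠ A p.2 → A p.1 b ≠ A p.2 b := by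
    intro p
    by_cases h : A p.1 = A p.2
    · exact ⟨0, fun h' => absurd h h'⟩
    · obtain ⟨b, hb⟩ := Function.ne_iff.1 h
      exact ⟨b, fun _ => hb⟩
  choose b hb using key
  refine ⟨fun p => (b p, A p.1 (b p)), ?_⟩
  rintro p hp q hq ⟨h1, h2, h3⟩ heq
  simp only [Prod.mk.injEq] at heq
  obtain ⟨e1, e2⟩ := heq
  have hp' := hb p (hp h1)
  have hq' := hb q (hq h2)
  rcases h3 with h3 | h3
  · rw [← e1, ← h3] at e2
    exact hp' e2
  · rw [e1, ← h3] at e2
    exact hq' e2.symm

/-- the number of `A` which do not distinguish two given points -/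
theorem card_not_cut {N : ℕ} {X : Type} [Fintype X] [DecidableEq X] {i j : Fin N} (hij : i ≠ j) :
    Fintype.card X * Fintype.card {A : Fin N → X // A i = A j} = Fintype.card (Fin N → X) := by
  classical
  rw [← Fintype.card_prod]
  refine Fintype.card_congr
    { toFun := fun z => Function.update z.2.1 j z.1
      invFun := fun A => (A j, ⟨Function.update A j (A i), by
        rw [Function.update_of_ne hij, Function.update_self]⟩)
      left_inv := ?_
      right_inv := ?_ }
  · rintro ⟨x, A, hA⟩
    simp only [Function.update_self, Function.update_idem, Prod.mk.injEq, true_and]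
    apply Subtype.ext
    simp only
    rw [Function.update_of_ne hij, hA, Function.update_eq_self]
  · intro A
    simp

/-! ### Covering -/

/-- If every point is good for at least half of the choices, few choices suffice. -/
theorem exists_cover {W Ω : Type} [Fintype W] [Fintype Ω] [Nonempty Ω]
    (good : W → Ω → Prop) [∀ w, DecidablePred fun ω => ¬ good w ω]
    (h : ∀ w, 2 * (Finset.univ.filter fun ω => ¬ good w ω).card ≤ Fintype.card Ω)
    (T : ℕ) (hT : Fintype.card W < 2 ^ T) : ∃ ω : Fin T → Ω, ∀ w, ∃ t, good w (ω t) := by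
  classical
  have key : ∀ T : ℕ, ∃ ω : Fin T → Ω,
      2 ^ T * (Finset.univ.filter fun w : W => ∀ t, ¬ good w (ω t)).card ≤ Fintype.card W := by
    intro T
    induction T with
    | zero => exact ⟨Fin.elim0, by simp⟩
    | succ T ih =>
      obtain ⟨ω, hω⟩ := ih
      set U := Finset.univ.filter fun w : W => ∀ t, ¬ good w (ω t) with hU
      have hsum : ∑ x : Ω, 2 * (U.filter fun w => ¬ good w x).card ≤ ∑ _x : Ω, U.card := by
        rw [← Finset.mul_sum]
        have : ∑ x : Ω, (U.filter fun w => ¬ good w x).card =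
            ∑ w ∈ U, (Finset.univ.filter fun x : Ω => ¬ good w x).card := by
          simp only [Finset.card_filter]
          exact Finset.sum_comm
        rw [this, Finset.mul_sum]
        calc ∑ w ∈ U, 2 * (Finset.univ.filter fun x : Ω => ¬ good w x).card
            ≤ ∑ _w ∈ U, Fintype.card Ω := Finset.sum_le_sum fun w _ => h w
          _ = ∑ _x : Ω, U.card := by simp [mul_comm]
      obtain ⟨x, _, hx⟩ := Finset.exists_le_of_sum_le Finset.univ_nonempty hsum
      refine ⟨Fin.snoc ω x, ?_⟩
      have hsub : (Finset.univ.filter fun w : W => ∀ t, ¬ good w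
          ((Fin.snoc ω x : Fin (T + 1) → Ω) t)) ⊆ U.filter fun w => ¬ good w x := by
        intro w hw
        simp only [Finset.mem_filter, Finset.mem_univ, true_and, hU] at hw ⊢
        refine ⟨fun t => ?_, ?_⟩
        · have := hw (Fin.castSucc t)
          rwa [Fin.snoc_castSucc] at this
        · have := hw (Fin.last T)
          rwa [Fin.snoc_last] at this
      calc 2 ^ (T + 1) * _ ≤ 2 ^ (T + 1) * (U.filter fun w => ¬ good w x).card :=
            Nat.mul_le_mul_left _ (Finset.card_le_card hsub)
        _ = 2 ^ T * (2 * (U.filter fun w => ¬ good w x).card) := by ring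
        _ ≤ 2 ^ T * U.card := Nat.mul_le_mul_left _ hx
        _ ≤ Fintype.card W := hω
  obtain ⟨ω, hω⟩ := key T
  refine ⟨ω, fun w => ?_⟩
  by_contra hcon
  push Not at hcon
  have h1 : 0 < (Finset.univ.filter fun w : W => ∀ t, ¬ good w (ω t)).card :=
    Finset.card_pos.2 ⟨w, by simpa using hcon⟩
  have h2 : 2 ^ T * 1 ≤ 2 ^ T * (Finset.univ.filter fun w : W => ∀ t, ¬ good w (ω t)).card :=
    Nat.mul_le_mul_left _ h1
  omega

/-- assembling colourings of the pieces of a cover -/
theorem colorable_of_cover {W : Type} (H : SimpleGraph W) {T t : ℕ} (S : Fin T → Set W)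
    (hc : ∀ i, (H.induce (S i)).Colorable t) (hcov : ∀ w, ∃ i, w ∈ S i) :
    H.Colorable (T * t) := by
  choose i hi using hcov
  have f : ∀ i, (H.induce (S i)).Coloring (Fin t) := fun i => (hc i).some
  let C : H.Coloring (Fin T × Fin t) := SimpleGraph.Coloring.mk
    (fun w => (i w, f (i w) ⟨w, hi w⟩)) (by
      intro v w hvw heq
      simp only [Prod.mk.injEq] at heq
      obtain ⟨e1, e2⟩ := heq
      have hw : w ∈ S (i v) := by rw [e1]; exact hi w
      have e3 : ∀ j (hj : w ∈ S j), i w = j → f (i w) ⟨w, hi w⟩ = f j ⟨w, hj⟩ := by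
        rintro j hj rfl; rfl
      rw [e3 (i v) hw e1.symm] at e2
      exact (f (i v)).valid (show (H.induce (S (i v))).Adj ⟨v, hi v⟩ ⟨w, hw⟩ from hvw) e2)
  have := C.colorable
  simpa using this

end Pool.Agent.GProd
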