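import Pool.Agent.GProd.Hered

/-!
# Graphs with extension properties containing the arc graph

`bigG ω` is a graph on the arcs together with `k + 1` independent sets of size `L`; for a suitable
array `ω` every demand on at most `k` vertices is met by a vertex in one of these sets.
-/

namespace Pool.Agent.GProd

/-- arcs, and `k + 1` classes of `L` further vertices -/
abbrev VV (N k L : ℕ) : Type := (Fin N × Fin N) ⊕ (Fin (k + 1) × Fin L)

/-- the class of a vertex -/
def cls {N k L : ℕ} : VV N k L → Option (Fin (k + 1))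
  | .inl _ => none
  | .inr r => some r.1

/-- the graph given by the array `ω` -/
def bigG {N k L : ℕ} (ω : VV N k L → VV N k L → Bool) : SimpleGraph (VV N k L) where
  Adj x y :=
    match x, y with
    | .inl p, .inl q => (arcG N).Adj p q
    | .inl p, .inr r => ω (.inr r) (.inl p) = true
    | .inr r, .inl p => ω (.inr r) (.inl p) = true
    | .inr r, .inr r' => (r.1 < r'.1 ∧ ω (.inr r) (.inr r') = true) ∨
        (r'.1 < r.1 ∧ ω (.inr r') (.inr r) = true)
  symm := ⟨fun x y h => by
    rcases x with p | r <;> rcases y with q | r'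
    · exact SimpleGraph.Adj.symm (G := arcG N) h
    · exact h
    · exact h
    · exact Or.symm h⟩
  loopless := ⟨fun x h => by
    rcases x with p | r
    · exact (arcG N).irrefl h
    · rcases h with h | h <;> exact lt_irrefl _ h.1⟩

/-- the pairs whose entries are exchanged to see the rows of class `c` -/
def sw {N k L : ℕ} (c : Fin (k + 1)) (x y : VV N k L) : Prop :=
  (cls x = some c ∧ ∃ c', cls y = some c' ∧ c' < c) ∨
    (cls y = some c ∧ ∃ c', cls x = some c' ∧ c' < c)

theorem sw_symm {N k L : ℕ} (c : Fin (k + 1)) (x y : VV N k L) : sw c x y ↔ sw c y x := by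
  unfold sw; exact or_comm

open Classical in
/-- the rearranged array -/
noncomputable def rearr {N k L : ℕ} (c : Fin (k + 1)) (ω : VV N k L → VV N k L → Bool) :
    VV N k L → VV N k L → Bool := fun x y => if sw c x y then ω y x else ω x y

theorem rearr_rearr {N k L : ℕ} (c : Fin (k + 1)) (ω : VV N k L → VV N k L → Bool) :
    rearr c (rearr c ω) = ω := by
  funext x y
  unfold rearr
  by_cases h : sw c x y
  · rw [if_pos h, if_pos ((sw_symm c x y).1 h)]
  · rw [if_neg h, if_neg h]

theorem adj_iff {N k L : ℕ} (ω : VV N k L → VV N k L → Bool) (c : Fin (k + 1)) (i : Fin L)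
    (y : VV N k L) (hy : cls y ≠ some c) :
    (bigG ω).Adj (.inr (c, i)) y ↔ rearr c ω (.inr (c, i)) y = true := by
  rcases y with q | ⟨c', i'⟩
  · have h : ¬ sw c (.inr (c, i) : VV N k L) (.inl q) := by
      rintro (⟨_, c', h, _⟩ | ⟨h, _⟩)
      · simp [cls] at h
      · simp [cls] at h
    unfold rearr
    rw [if_neg h]
    rfl
  · have hne : c' ≠ c := fun h => hy (by rw [h]; rfl)
    change (c < c' ∧ ω (.inr (c, i)) (.inr (c', i')) = true) ∨
        (c' < c ∧ ω (.inr (c', i')) (.inr (c, i)) = true) ↔ _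
    rcases lt_or_gt_of_ne hne with hlt | hlt
    · have h : sw c (.inr (c, i) : VV N k L) (.inr (c', i')) := Or.inl ⟨rfl, c', rfl, hlt⟩
      unfold rearr
      rw [if_pos h]
      constructor
      · rintro (h1 | h1)
        · exact absurd h1.1 hlt.not_gt
        · exact h1.2
      · intro h1; exact Or.inr ⟨hlt, h1⟩
    · have h : ¬ sw c (.inr (c, i) : VV N k L) (.inr (c', i')) := by
        rintro (⟨_, c'', h, h'⟩ | ⟨h, _⟩)
        · simp only [cls, Option.some.injEq] at h
          subst h
          exact h'.not_gt hlt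
        · simp only [cls, Option.some.injEq] at h
          exact hne h
      unfold rearr
      rw [if_neg h]
      constructor
      · rintro (h1 | h1)
        · exact h1.2
        · exact absurd h1.1 hlt.not_gt
      · intro h1; exact Or.inl ⟨hlt, h1⟩

/-! ### Counting -/

/-- a consistent set of `m` demands is met by at least the fraction `2 ^ (-m)` of the rows -/
theorem card_rows {V : Type} [Fintype V] [DecidableEq V] {m : ℕ} (u : Fin m → V) (b : Fin m → Bool)
    (hub : ∀ i j, u i = u j → b i = b j) (B' : Finset (V → Bool))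
    (hB' : ∀ f ∈ B', ∃ j, f (u j) ≠ b j) :
    2 ^ m * B'.card ≤ (2 ^ m - 1) * Fintype.card (V → Bool) := by
  classical
  set B := (Finset.univ.filter fun f : V → Bool => ∃ j, f (u j) ≠ b j) with hB
  have hBB : B'.card ≤ B.card := Finset.card_le_card fun f hf =>
    Finset.mem_filter.2 ⟨Finset.mem_univ _, hB' f hf⟩
  refine (Nat.mul_le_mul_left _ hBB).trans ?_
  set C := (Finset.univ.filter fun f : V → Bool => ∀ j, f (u j) = b j) with hC
  have hBC : B.card + C.card = Fintype.card (V → Bool) := by
    have h1 := Finset.card_filter_add_card_filter_not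
      (s := (Finset.univ : Finset (V → Bool))) (fun f : V → Bool => ∃ j, f (u j) ≠ b j)
    rw [Finset.card_univ] at h1
    rw [← h1, hB, hC]
    congr 2
    ext f
    simp
  -- the correction map
  let corr : (V → Bool) → (V → Bool) := fun g x =>
    if h : ∃ j, u j = x then b h.choose else g x
  have hcorr : ∀ g j, corr g (u j) = b j := by
    intro g j
    have h : ∃ j', u j' = u j := ⟨j, rfl⟩
    simp only [corr, dif_pos h]
    exact hub _ _ h.choose_spec
  have hinj : Fintype.card (V → Bool) ≤ C.card * 2 ^ m := by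
    let Φ : (V → Bool) → {f // f ∈ C} × (Fin m → Bool) := fun g =>
      (⟨corr g, by simp only [hC, Finset.mem_filter, Finset.mem_univ, true_and]; exact hcorr g⟩,
        fun j => g (u j))
    have hΦ : Function.Injective Φ := by
      intro g g' hgg
      have h1 : corr g = corr g' := congrArg (fun z => (z.1 : V → Bool)) hgg
      have h2 : (fun j => g (u j)) = fun j => g' (u j) := congrArg (fun z => z.2) hgg
      funext x
      by_cases h : ∃ j, u j = x
      · obtain ⟨j, rfl⟩ := h
        exact congrFun h2 j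
      · have h3 := congrFun h1 x
        simp only [corr, dif_neg h] at h3
        exact h3
    have := Fintype.card_le_of_injective Φ hΦ
    simpa using this
  have hpos : 1 ≤ 2 ^ m := Nat.one_le_two_pow
  zify [hpos]
  have h1 : (B.card : ℤ) + C.card = Fintype.card (V → Bool) := by exact_mod_cast hBC
  have h2 : (Fintype.card (V → Bool) : ℤ) ≤ C.card * 2 ^ m := by exact_mod_cast hinj
  nlinarith

open Classical in
theorem card_bad_omega {N k L m : ℕ} (c : Fin (k + 1)) (u : Fin m → VV N k L)
    (b : Fin m → Bool) (hub : ∀ i j, u i = u j → b i = b j)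
    (Bad : Finset (VV N k L → VV N k L → Bool))
    (hBad : ∀ ω ∈ Bad, ∀ i : Fin L, ∃ j, rearr c ω (.inr (c, i)) (u j) ≠ b j) :
    (2 ^ m) ^ L * Bad.card ≤
    (2 ^ m - 1) ^ L * Fintype.card (VV N k L → VV N k L → Bool) := by
  set B := (Finset.univ.filter fun f : VV N k L → Bool => ∃ j, f (u j) ≠ b j) with hB
  -- the bad arrays after rearranging
  have h1 : Bad.card ≤
      (Fintype.piFinset fun x : VV N k L => if cls x = some c then B else Finset.univ).card := by
    refine Finset.card_le_card_of_injOn (rearr c) ?_ ?_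
    · intro ω hω
      rw [Finset.mem_coe, Fintype.mem_piFinset]
      intro x
      by_cases hx : cls x = some c
      · rw [if_pos hx]
        rcases x with p | ⟨c', i⟩
        · simp [cls] at hx
        · simp only [cls, Option.some.injEq] at hx
          subst hx
          rw [hB, Finset.mem_filter]
          exact ⟨Finset.mem_univ _, hBad ω hω i⟩
      · rw [if_neg hx]; exact Finset.mem_univ _
    · intro ω _ ω' _ h
      rw [← rearr_rearr c ω, ← rearr_rearr c ω']
      exact congrArg (rearr c) h
  have hprod : ∀ a : ℕ, ∏ x : VV N k L, (if cls x = some c then a else 1) = a ^ L := by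
    intro a
    have h2 : ∀ c' : Fin (k + 1), ∏ _i : Fin L, (if c' = c then a else 1) =
        if c' = c then a ^ L else 1 := by
      intro c'; split_ifs <;> simp
    rw [Fintype.prod_sum_type]
    simp only [cls, Option.some.injEq, reduceCtorEq, if_false, Finset.prod_const_one, one_mul]
    rw [Fintype.prod_prod_type]
    simp only [h2]
    rw [Finset.prod_ite_eq']
    simp
  have hrow := card_rows u b hub B (fun f hf => (Finset.mem_filter.1 hf).2)
  calc (2 ^ m) ^ L * _ ≤ (2 ^ m) ^ L *
        (Fintype.piFinset fun x : VV N k L => if cls x = some c then B else Finset.univ).card :=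
        Nat.mul_le_mul_left _ h1
    _ = ∏ x : VV N k L, (if cls x = some c then 2 ^ m else 1) *
        (if cls x = some c then B else Finset.univ).card := by
        rw [Fintype.card_piFinset, ← hprod, ← Finset.prod_mul_distrib]
    _ ≤ ∏ x : VV N k L, (if cls x = some c then (2 ^ m - 1) else 1) *
        Fintype.card (VV N k L → Bool) := by
        apply Finset.prod_le_prod'
        intro x _
        by_cases hx : cls x = some c
        · rw [if_pos hx, if_pos hx, if_pos hx]
          exact hrow
        · rw [if_neg hx, if_neg hx, if_neg hx, Finset.card_univ]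
    _ = (2 ^ m - 1) ^ L * Fintype.card (VV N k L → VV N k L → Bool) := by
        rw [Finset.prod_mul_distrib, hprod]
        congr 1
        rw [Finset.prod_const, Finset.card_univ]
        simp only [Fintype.card_fun]

/-- If `L` is large, some array meets all demands. -/
theorem exists_omega {N k L m : ℕ}
    (h : (k + 1) * (2 * Fintype.card (VV N k L)) ^ m * (2 ^ m - 1) ^ L < (2 ^ m) ^ L) :
    ∃ ω : VV N k L → VV N k L → Bool, ∀ (c : Fin (k + 1)) (u : Fin m → VV N k L)
      (b : Fin m → Bool), (∀ i j, u i = u j → b i = b j) →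
      ∃ i : Fin L, ∀ j, rearr c ω (.inr (c, i)) (u j) = b j := by
  classical
  by_contra hcon
  push Not at hcon
  set D := Fin (k + 1) × (Fin m → VV N k L) × (Fin m → Bool) with hD
  let bad : D → Finset (VV N k L → VV N k L → Bool) := fun d =>
    if (∀ i j, d.2.1 i = d.2.1 j → d.2.2 i = d.2.2 j) then
      (Finset.univ.filter fun ω : VV N k L → VV N k L → Bool =>
        ∀ i : Fin L, ∃ j, rearr d.1 ω (.inr (d.1, i)) (d.2.1 j) ≠ d.2.2 j) else ∅
  have hcover : (Finset.univ : Finset (VV N k L → VV N k L → Bool)) ⊆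
      (Finset.univ : Finset D).biUnion bad := by
    intro ω _
    obtain ⟨c, u, b, hub, hbad⟩ := hcon ω
    refine Finset.mem_biUnion.2 ⟨(c, u, b), Finset.mem_univ _, ?_⟩
    simp only [bad]
    rw [if_pos hub, Finset.mem_filter]
    exact ⟨Finset.mem_univ _, hbad⟩
  have hbd : ∀ d : D, (2 ^ m) ^ L * (bad d).card ≤
      (2 ^ m - 1) ^ L * Fintype.card (VV N k L → VV N k L → Bool) := by
    intro d
    simp only [bad]
    by_cases hd : (∀ i j, d.2.1 i = d.2.1 j → d.2.2 i = d.2.2 j)
    · rw [if_pos hd]
      exact card_bad_omega d.1 d.2.1 d.2.2 hd _ (fun ω hω => (Finset.mem_filter.1 hω).2)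
    · rw [if_neg hd]; simp
  have hcard : Fintype.card D = (k + 1) * (2 * Fintype.card (VV N k L)) ^ m := by
    change Fintype.card (Fin (k + 1) × (Fin m → VV N k L) × (Fin m → Bool)) = _
    simp only [Fintype.card_prod, Fintype.card_fun, Fintype.card_fin, Fintype.card_bool]
    rw [mul_pow]; ring
  have hpos : 0 < Fintype.card (VV N k L → VV N k L → Bool) := Fintype.card_pos
  have : (2 ^ m) ^ L * Fintype.card (VV N k L → VV N k L → Bool) <
      (2 ^ m) ^ L * Fintype.card (VV N k L → VV N k L → Bool) := by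
    calc (2 ^ m) ^ L * Fintype.card (VV N k L → VV N k L → Bool)
        ≤ (2 ^ m) ^ L * ∑ d : D, (bad d).card := by
          apply Nat.mul_le_mul_left
          rw [← Finset.card_univ]
          exact (Finset.card_le_card hcover).trans Finset.card_biUnion_le
      _ = ∑ d : D, (2 ^ m) ^ L * (bad d).card := Finset.mul_sum _ _ _
      _ ≤ ∑ _d : D, (2 ^ m - 1) ^ L * Fintype.card (VV N k L → VV N k L → Bool) :=
          Finset.sum_le_sum fun d _ => hbd d
      _ = ((k + 1) * (2 * Fintype.card (VV N k L)) ^ m * (2 ^ m - 1) ^ L) *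
          Fintype.card (VV N k L → VV N k L → Bool) := by
          rw [Finset.sum_const, Finset.card_univ, hcard, smul_eq_mul]; ring
      _ < (2 ^ m) ^ L * Fintype.card (VV N k L → VV N k L → Bool) :=
          Nat.mul_lt_mul_of_pos_right h hpos
  exact lt_irrefl _ this

/-! ### The extension property -/

/-- the `k`-extension property -/
def Ext (k : ℕ) (X : FinGraph) : Prop :=
  ∀ U W : Finset X.V, Disjoint U W → U.card + W.card ≤ k →
    ∃ x, x ∉ U ∧ x ∉ W ∧ (∀ u ∈ U, X.G.Adj x u) ∧ ∀ w ∈ W, ¬ X.G.Adj x w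

/-- the arcs in `S` and all further vertices -/
def zset {N : ℕ} (k L : ℕ) (S : Set (Fin N × Fin N)) : Set (VV N k L) :=
  {x | ∀ p, x = .inl p → p ∈ S}

/-- arrays meeting all demands on `k + 1` vertices -/
def GoodArray {N k L : ℕ} (ω : VV N k L → VV N k L → Bool) : Prop :=
  ∀ (c : Fin (k + 1)) (u : Fin (k + 1) → VV N k L) (b : Fin (k + 1) → Bool),
    (∀ i j, u i = u j → b i = b j) → ∃ i : Fin L, ∀ j, rearr c ω (.inr (c, i)) (u j) = b j

theorem exists_witness {N k L : ℕ} [NeZero N] {ω : VV N k L → VV N k L → Bool}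
    (hω : GoodArray ω) (U W : Finset (VV N k L)) (hUW : Disjoint U W)
    (hcard : U.card + W.card ≤ k) :
    ∃ r : Fin (k + 1) × Fin L, (.inr r : VV N k L) ∉ U ∧ (.inr r : VV N k L) ∉ W ∧
      (∀ u ∈ U, (bigG ω).Adj (.inr r) u) ∧ ∀ w ∈ W, ¬ (bigG ω).Adj (.inr r) w := by
  classical
  -- a class which is not hit
  obtain ⟨c, hc⟩ : ∃ c : Fin (k + 1), ∀ x ∈ U ∪ W, cls x ≠ some c := by
    by_contra hcon
    push Not at hcon
    have h1 : (Finset.univ : Finset (Fin (k + 1))).image some ⊆ (U ∪ W).image cls := by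
      intro o ho
      obtain ⟨c, _, rfl⟩ := Finset.mem_image.1 ho
      obtain ⟨x, hx, hx'⟩ := hcon c
      exact Finset.mem_image.2 ⟨x, hx, hx'⟩
    have h2 := Finset.card_le_card h1
    rw [Finset.card_image_of_injective _ (Option.some_injective _), Finset.card_univ,
      Fintype.card_fin] at h2
    have h3 := Finset.card_image_le (s := U ∪ W) (f := cls)
    have h4 := Finset.card_union_le U W
    omega
  set D : Finset (VV N k L) := insert (.inl (0, 0)) (U ∪ W) with hD
  have hDc : ∀ x ∈ D, cls x ≠ some c := by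
    intro x hx
    rcases Finset.mem_insert.1 hx with rfl | hx
    · simp [cls]
    · exact hc x hx
  have hDcard : Fintype.card D ≤ Fintype.card (Fin (k + 1)) := by
    rw [Fintype.card_coe, Fintype.card_fin]
    have h1 : D.card ≤ (U ∪ W).card + 1 := Finset.card_insert_le _ _
    have h4 := Finset.card_union_le U W
    omega
  obtain ⟨e⟩ := Function.Embedding.nonempty_of_card_le hDcard
  have : Nonempty D := ⟨⟨.inl (0, 0), Finset.mem_insert_self _ _⟩⟩
  let u : Fin (k + 1) → VV N k L := fun j => ((Function.invFun e j : {x // x ∈ D}) : VV N k L)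
  have hu : ∀ x ∈ D, ∃ j, u j = x := by
    intro x hx
    obtain ⟨j, hj⟩ := Function.invFun_surjective e.injective ⟨x, hx⟩
    exact ⟨j, congrArg Subtype.val hj⟩
  have huD : ∀ j, u j ∈ D := fun j => (Function.invFun e j).2
  obtain ⟨i, hi⟩ := hω c u (fun j => decide (u j ∈ U)) (fun i j hij => by rw [hij])
  have hnot : ∀ x ∈ U ∪ W, (.inr (c, i) : VV N k L) ≠ x := by
    rintro x hx rfl
    exact hc _ hx rfl
  refine ⟨(c, i), fun h => hnot _ (Finset.mem_union_left _ h) rfl,
    fun h => hnot _ (Finset.mem_union_right _ h) rfl, ?_, ?_⟩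
  · intro x hx
    have hxD : x ∈ D := Finset.mem_insert_of_mem (Finset.mem_union_left _ hx)
    obtain ⟨j, hj⟩ := hu x hxD
    rw [adj_iff ω c i x (hDc x hxD), ← hj, hi j, hj]
    simpa using hx
  · intro x hx
    have hxD : x ∈ D := Finset.mem_insert_of_mem (Finset.mem_union_right _ hx)
    obtain ⟨j, hj⟩ := hu x hxD
    rw [adj_iff ω c i x (hDc x hxD), ← hj, hi j, hj]
    simp only [decide_eq_true_eq]
    intro hxU
    exact (Finset.disjoint_left.1 hUW hxU) hx

/-- the graph with extension property as a finite graph -/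
def bigX (s k L : ℕ) (ω : VV (2 ^ s) k L → VV (2 ^ s) k L → Bool) : FinGraph where
  V := VV (2 ^ s) k L
  ne := ⟨.inl (⟨0, by positivity⟩, ⟨0, by positivity⟩)⟩
  G := bigG ω

theorem zset_nonempty (s k L ℓ : ℕ) (A : Fin (2 ^ s) → Fin ℓ → Bool) :
    (zset k L (cut A)).Nonempty := by
  obtain ⟨p, hp⟩ := cut_nonempty s ℓ A
  exact ⟨.inl p, fun q hq => by simp only [Sum.inl.injEq] at hq; rwa [← hq]⟩

theorem ext_bigX {s k L : ℕ} {ω : VV (2 ^ s) k L → VV (2 ^ s) k L → Bool}
    (hω : GoodArray ω) : Ext k (bigX s k L ω) := by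
  intro U W hUW hcard
  obtain ⟨r, h1, h2, h3, h4⟩ := exists_witness hω U W hUW hcard
  exact ⟨.inr r, h1, h2, h3, h4⟩

theorem ext_induce {s k L : ℕ} {ω : VV (2 ^ s) k L → VV (2 ^ s) k L → Bool}
    (hω : GoodArray ω) (S : Set (Fin (2 ^ s) × Fin (2 ^ s))) (hS : (zset k L S).Nonempty) :
    Ext k ((bigX s k L ω).induce (zset k L S) hS) := by
  classical
  intro U W hUW hcard
  let emb : (zset k L S) ↪ VV (2 ^ s) k L := Function.Embedding.subtype _
  have hU : (Finset.map emb U).card = U.card := Finset.card_map _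
  have hW : (Finset.map emb W).card = W.card := Finset.card_map _
  obtain ⟨r, h1, h2, h3, h4⟩ := exists_witness hω (Finset.map emb U) (Finset.map emb W)
    ((Finset.disjoint_map emb).2 hUW) (le_of_eq_of_le (congrArg₂ (· + ·) hU hW) hcard)
  have hr : (.inr r : VV (2 ^ s) k L) ∈ zset k L S := fun p hp => by simp at hp
  refine ⟨⟨.inr r, hr⟩, ?_, ?_, ?_, ?_⟩
  · intro h; exact h1 (Finset.mem_map.2 ⟨_, h, rfl⟩)
  · intro h; exact h2 (Finset.mem_map.2 ⟨_, h, rfl⟩)
  · intro u hu; exact h3 _ (Finset.mem_map.2 ⟨u, hu, rfl⟩)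
  · intro w hw; exact h4 _ (Finset.mem_map.2 ⟨w, hw, rfl⟩)

theorem le_chi_bigX (s k L : ℕ) (ω : VV (2 ^ s) k L → VV (2 ^ s) k L → Bool) :
    s ≤ (bigX s k L ω).chi := by
  refine (le_chi_arcX s).trans (FinGraph.chi_mono (X := arcX s) (Y := bigX s k L ω) ?_)
  exact ⟨fun p => .inl p, fun h => h⟩

theorem chi_zset_le {s k L ℓ : ℕ} (ω : VV (2 ^ s) k L → VV (2 ^ s) k L → Bool)
    (A : Fin (2 ^ s) → Fin (ℓ + 1) → Bool) :
    ((bigX s k L ω).induce (zset k L (cut A)) (zset_nonempty s k L _ A)).chi ≤
      2 * (ℓ + 1) + (k + 1) := by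
  obtain ⟨f, hf⟩ := exists_cut_colour A
  refine FinGraph.chi_le ?_
  let col : VV (2 ^ s) k L → (Fin (ℓ + 1) × Bool) ⊕ Fin (k + 1) := fun x =>
    match x with
    | .inl p => .inl (f p)
    | .inr r => .inr r.1
  let C : (((bigX s k L ω).induce (zset k L (cut A)) (zset_nonempty s k L _ A)).G).Coloring
      ((Fin (ℓ + 1) × Bool) ⊕ Fin (k + 1)) :=
    SimpleGraph.Coloring.mk (fun x => col x.1) (by
      rintro ⟨x, hx⟩ ⟨y, hy⟩ hxy heq
      have hxy' : (bigG ω).Adj x y := hxy
      rcases x with p | r <;> rcases y with q | r'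
      · simp only [col, Sum.inl.injEq] at heq
        exact hf p (hx p rfl) q (hy q rfl) hxy' heq
      · simp [col] at heq
      · simp [col] at heq
      · simp only [col, Sum.inr.injEq] at heq
        rcases hxy' with h | h
        · exact h.1.ne heq
        · exact h.1.ne heq.symm)
  have := C.colorable
  simpa [mul_comm] using this

end Pool.Agent.GProd
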