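import Pool.Agent.GProd.Inv

/-!
# First-order definable graph products are pebble definable
-/

namespace Pool.Agent.GProd

open FirstOrder

/-- the relation symbols: adjacency, and membership in the first factor -/
inductive GrRel : ℕ → Type
  | adj : GrRel 2
  | left : GrRel 1

/-- the language of pairs of graphs -/
def grL : FirstOrder.Language.{0, 0} := ⟨fun _ => Empty, GrRel⟩

/-- the pair of graphs `(X, Y)` as a structure -/
@[instance_reducible] def bothStr (X Y : FinGraph) : grL.Structure (Both X Y) where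
  funMap := fun f _ => Empty.elim f
  RelMap := fun {_} r =>
    match r with
    | GrRel.adj => fun v => bothAdj X Y (v 0) (v 1)
    | GrRel.left => fun v => (v 0).isLeft = true

/-- truth of a first-order formula in the pair of graphs `(X, Y)` -/
def RealizeF {α : Type} (φ : grL.Formula α) (X Y : FinGraph) (v : α → Both X Y) : Prop :=
  letI := bothStr X Y
  φ.Realize v

/-- truth of a bounded formula -/
def RealizeB {α : Type} {n : ℕ} (φ : grL.BoundedFormula α n) (X Y : FinGraph)
    (v : α → Both X Y) (xs : Fin n → Both X Y) : Prop :=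
  letI := bothStr X Y
  φ.Realize v xs

/-- value of a term -/
def valT {β : Type} (X Y : FinGraph) (v : β → Both X Y) (t : grL.Term β) : Both X Y :=
  letI := bothStr X Y
  t.realize v

theorem term_var {β : Type} (t : grL.Term β) : ∃ x, t = FirstOrder.Language.Term.var x := by
  cases t with
  | var x => exact ⟨x, rfl⟩
  | func f ts => exact Empty.elim f

open Classical in
/-- the finite set of pairs given by two assignments -/
noncomputable def prs {α : Type} [Fintype α] {n : ℕ} {M M' : Type} (v : α → M) (v' : α → M')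
    (xs : Fin n → M) (xs' : Fin n → M') : Finset (M × M') :=
  (Finset.univ.image fun i : α ⊕ Fin n => (Sum.elim v xs i, Sum.elim v' xs' i))

open Classical in
theorem mem_prs {α : Type} [Fintype α] {n : ℕ} {M M' : Type} {v : α → M} {v' : α → M'}
    {xs : Fin n → M} {xs' : Fin n → M'} {q : M × M'} :
    q ∈ prs v v' xs xs' ↔ ∃ i, (Sum.elim v xs i, Sum.elim v' xs' i) = q := by
  unfold prs
  simp only [Finset.mem_image, Finset.mem_univ, true_and]

open Classical in
theorem card_prs_le {α : Type} [Fintype α] {n : ℕ} {M M' : Type} (v : α → M) (v' : α → M')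
    (xs : Fin n → M) (xs' : Fin n → M') :
    (prs v v' xs xs').card ≤ Fintype.card α + n := by
  unfold prs
  refine (Finset.card_image_le).trans ?_
  rw [Finset.card_univ, Fintype.card_sum, Fintype.card_fin]

open Classical in
/-- first-order formulas are preserved by back-and-forth systems with sufficiently many pebbles -/
theorem preserve {α : Type} [Fintype α] {n : ℕ} (φ : grL.BoundedFormula α n) :
    ∃ K : ℕ, ∀ k ≥ K, ∀ (X Y X' Y' : FinGraph) (I : Set (Finset (Both X Y × Both X' Y'))),
      BackForth k X Y X' Y' I → ∀ (v : α → Both X Y) (v' : α → Both X' Y')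
        (xs : Fin n → Both X Y) (xs' : Fin n → Both X' Y'), prs v v' xs xs' ∈ I →
        (RealizeB φ X Y v xs ↔ RealizeB φ X' Y' v' xs') := by
  induction φ with
  | falsum => exact ⟨0, fun _ _ _ _ _ _ _ _ _ _ _ _ _ => Iff.rfl⟩
  | @equal n t₁ t₂ =>
    refine ⟨0, fun k _ X Y X' Y' I hI v v' xs xs' hp => ?_⟩
    obtain ⟨i, rfl⟩ := term_var t₁
    obtain ⟨j, rfl⟩ := term_var t₂
    have h := hI.iso _ hp (Sum.elim v xs i, Sum.elim v' xs' i)
      (mem_prs.2 ⟨i, rfl⟩) (Sum.elim v xs j, Sum.elim v' xs' j) (mem_prs.2 ⟨j, rfl⟩)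
    exact h.1
  | @rel n l R ts =>
    refine ⟨0, fun k _ X Y X' Y' I hI v v' xs xs' hp => ?_⟩
    have hts : ∀ m, ∃ i, ts m = FirstOrder.Language.Term.var i := fun m => term_var _
    choose i hi using hts
    obtain rfl : ts = fun m => FirstOrder.Language.Term.var (i m) := funext hi
    have h : ∀ m m', _ := fun m m' =>
      hI.iso _ hp (Sum.elim v xs (i m), Sum.elim v' xs' (i m))
      (mem_prs.2 ⟨i m, rfl⟩) (Sum.elim v xs (i m'), Sum.elim v' xs' (i m'))
      (mem_prs.2 ⟨i m', rfl⟩)
    cases R with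
    | adj => exact (h 0 1).2.2
    | left =>
      have h1 := (h 0 0).2.1
      change (Sum.elim v xs (i 0)).isLeft = true ↔ (Sum.elim v' xs' (i 0)).isLeft = true
      simp only at h1
      rw [h1]
  | @imp n φ ψ ih1 ih2 =>
    obtain ⟨K1, h1⟩ := ih1
    obtain ⟨K2, h2⟩ := ih2
    refine ⟨max K1 K2, fun k hk X Y X' Y' I hI v v' xs xs' hp => ?_⟩
    have e1 := h1 k ((le_max_left _ _).trans hk) X Y X' Y' I hI v v' xs xs' hp
    have e2 := h2 k ((le_max_right _ _).trans hk) X Y X' Y' I hI v v' xs xs' hp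
    exact ⟨fun h a => e2.1 (h (e1.2 a)), fun h a => e2.2 (h (e1.1 a))⟩
  | @all n φ ih =>
    obtain ⟨K1, h1⟩ := ih
    refine ⟨max K1 (Fintype.card α + n + 1), fun k hk X Y X' Y' I hI v v' xs xs' hp => ?_⟩
    have hk1 : K1 ≤ k := (le_max_left _ _).trans hk
    have hk2 : Fintype.card α + n + 1 ≤ k := (le_max_right _ _).trans hk
    have hcard : (prs v v' xs xs').card < k := by
      have h2 := card_prs_le v v' xs xs'
      omega
    have hsub : ∀ x y, prs v v' (Fin.snoc xs x : Fin (n + 1) → Both X Y)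
        (Fin.snoc xs' y : Fin (n + 1) → Both X' Y') ⊆ insert (x, y) (prs v v' xs xs') := by
      intro x y q hq
      obtain ⟨i, rfl⟩ := mem_prs.1 hq
      rcases i with i | i
      · exact Finset.mem_insert_of_mem (mem_prs.2 ⟨Sum.inl i, rfl⟩)
      · refine Fin.lastCases ?_ (fun j => ?_) i
        · simp only [Sum.elim_inr, Fin.snoc_last]
          exact Finset.mem_insert_self _ _
        · simp only [Sum.elim_inr, Fin.snoc_castSucc]
          exact Finset.mem_insert_of_mem (mem_prs.2 ⟨Sum.inr j, rfl⟩)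
    have key : ∀ x y, insert (x, y) (prs v v' xs xs') ∈ I →
        (RealizeB φ X Y v (Fin.snoc xs x) ↔ RealizeB φ X' Y' v' (Fin.snoc xs' y)) := fun x y hxy =>
      h1 k hk1 X Y X' Y' I hI v v' _ _ (hI.sub _ hxy _ (hsub x y))
    constructor
    · intro h y
      obtain ⟨x, hx⟩ := hI.back _ hp hcard y
      exact (key x y hx).1 (h x)
    · intro h x
      obtain ⟨y, hy⟩ := hI.forth _ hp hcard x
      exact (key x y hy).2 (h y)

open Classical in
theorem preserveF {α : Type} [Fintype α] (φ : grL.Formula α) :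
    ∃ K : ℕ, ∀ k ≥ K, ∀ (X Y X' Y' : FinGraph) (a : α → Both X Y) (b : α → Both X' Y'),
      PebbleEquiv k X Y a X' Y' b → (RealizeF φ X Y a ↔ RealizeF φ X' Y' b) := by
  obtain ⟨K, hK⟩ := preserve φ
  refine ⟨K, fun k hk X Y X' Y' a b hab => ?_⟩
  obtain ⟨I, hI, hmem⟩ := hab
  refine hK k hk X Y X' Y' I hI a b _ _ ?_
  refine hI.sub _ hmem _ ?_
  intro q hq
  obtain ⟨i, rfl⟩ := mem_prs.1 hq
  rcases i with i | i
  · exact Finset.mem_image.2 ⟨i, Finset.mem_univ _, rfl⟩
  · exact i.elim0

/-- The product `P` is first-order definable: for some dimension `d` and first-order formulas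
`δ` and `φ` about pairs of graphs, the vertices of `P X Y` are represented by
the `d`-tuples satisfying `δ` (a vertex may have several representatives), and two vertices are
adjacent iff `φ` holds for their representatives. -/
def FODefinable (P : FinGraph → FinGraph → FinGraph) : Prop :=
  ∃ (d : ℕ) (δ : grL.Formula (Fin d)) (φ : grL.Formula (Fin d ⊕ Fin d)),
    ∀ X Y : FinGraph, ∃ π : {x : Fin d → Both X Y // RealizeF δ X Y x} → (P X Y).V,
      Function.Surjective π ∧
        ∀ x y, (P X Y).G.Adj (π x) (π y) ↔ RealizeF φ X Y (Sum.elim x.1 y.1)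

theorem FODefinable.pebbleDefinable {P : FinGraph → FinGraph → FinGraph} (h : FODefinable P) :
    PebbleDefinable P := by
  obtain ⟨d, δ, φ, hP⟩ := h
  obtain ⟨K1, h1⟩ := preserveF δ
  obtain ⟨K2, h2⟩ := preserveF φ
  refine ⟨d, max (2 * d) (max K1 K2), le_max_left _ _,
    ⟨fun X Y x => RealizeF δ X Y x, fun X Y x y => RealizeF φ X Y (Sum.elim x y)⟩,
    ⟨fun X Y X' Y' a b hab => ?_, fun X Y X' Y' a a' b b' hab => ?_⟩, hP⟩
  · exact h1 _ ((le_max_left _ _).trans (le_max_right _ _)) X Y X' Y' a b hab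
  · exact h2 _ ((le_max_right _ _).trans (le_max_right _ _)) X Y X' Y' _ _ hab

/-! ### Definable products are automorphism-invariant -/

open Classical in
theorem pebbleEquiv_aut {k : ℕ} {X Y : FinGraph} (e : X.G ≃g X.G) (e' : Y.G ≃g Y.G)
    {ι : Type} [Fintype ι] (hι : Fintype.card ι ≤ k) (a : ι → Both X Y) :
    PebbleEquiv k X Y a X Y (fun j => Sum.map e e' (a j)) := by
  have hinj : Function.Injective (Sum.map e e' : Both X Y → Both X Y) :=
    Sum.map_injective.2 ⟨e.injective, e'.injective⟩
  have hsurj : Function.Surjective (Sum.map e e' : Both X Y → Both X Y) :=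
    Sum.map_surjective.2 ⟨e.surjective, e'.surjective⟩
  refine ⟨{p | p.card ≤ k ∧ ∀ q ∈ p, q.2 = Sum.map e e' q.1},
    ⟨fun p hp q hq q' hq' => ?_, fun p hp => hp.1, fun p hp q hq => ?_,
      fun p hp hc x => ?_, fun p hp hc y => ?_⟩, ?_, ?_⟩
  · rw [hp.2 q hq, hp.2 q' hq']
    refine ⟨⟨fun h => by rw [h], fun h => hinj h⟩, ?_, ?_⟩
    · rcases q.1 with x | x <;> rfl
    · rcases q.1 with x | x <;> rcases q'.1 with x' | x'
      · exact (e.map_rel_iff).symm
      · exact Iff.rfl
      · exact Iff.rfl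
      · exact (e'.map_rel_iff).symm
  · exact ⟨(Finset.card_le_card hq).trans hp.1, fun r hr => hp.2 r (hq hr)⟩
  · refine ⟨Sum.map e e' x, (Finset.card_insert_le _ _).trans hc, fun q hq => ?_⟩
    rcases Finset.mem_insert.1 hq with rfl | hq
    · rfl
    · exact hp.2 q hq
  · obtain ⟨x, rfl⟩ := hsurj y
    refine ⟨x, (Finset.card_insert_le _ _).trans hc, fun q hq => ?_⟩
    rcases Finset.mem_insert.1 hq with rfl | hq
    · rfl
    · exact hp.2 q hq
  · exact (Finset.card_image_le).trans hι
  · intro q hq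
    obtain ⟨j, _, rfl⟩ := Finset.mem_image.1 hq
    rfl

theorem PebbleDefinable.invariantProduct {P : FinGraph → FinGraph → FinGraph}
    (h : PebbleDefinable P) : InvariantProduct P := by
  obtain ⟨d, k, hdk, I, ⟨hD, hE⟩, hdef⟩ := h
  refine ⟨1, d, ⟨fun X Y _ x => I.D X Y x, fun X Y _ x _ y => I.E X Y x y⟩, ?_, ?_⟩
  · intro X Y e e'
    refine ⟨fun _ a => ?_, fun _ a _ a' => ?_⟩
    · exact hD X Y X Y a _ (pebbleEquiv_aut e e' (by rw [Fintype.card_fin]; omega) a)
    · have h1 := pebbleEquiv_aut (k := k) e e' (ι := Fin d ⊕ Fin d)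
        (by rw [Fintype.card_sum, Fintype.card_fin]; omega) (Sum.elim a a')
      have h2 : (fun j => Sum.map e e' (Sum.elim a a' j)) =
          Sum.elim (fun j => Sum.map e e' (a j)) (fun j => Sum.map e e' (a' j)) := by
        funext j
        rcases j with j | j <;> rfl
      rw [h2] at h1
      exact hE X Y X Y a a' _ _ h1
  · intro X Y
    obtain ⟨π, hπ, hadj⟩ := hdef X Y
    refine ⟨fun z => π ⟨z.1.2, z.2⟩, fun w => ?_, fun z z' => hadj _ _⟩
    obtain ⟨x, hx⟩ := hπ w
    exact ⟨⟨(0, x.1), x.2⟩, hx⟩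

/-- first-order definable products are automorphism-invariant products of bounded arity -/
theorem FODefinable.invariantProduct {P : FinGraph → FinGraph → FinGraph} (h : FODefinable P) :
    InvariantProduct P := h.pebbleDefinable.invariantProduct

end Pool.Agent.GProd
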