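import Pool.Agent.GProd.Basic

/-!
# Hereditary graph products with small supports
-/

namespace Pool.Agent.GProd

open Classical in
/-- one arc is rarely cut -/
theorem card_bad_one {N ℓ : ℕ} (p : Fin N × Fin N) :
    2 ^ ℓ * (Finset.univ.filter fun A : Fin N → Fin ℓ → Bool => p ∉ cut A).card ≤
      Fintype.card (Fin N → Fin ℓ → Bool) := by
  by_cases hp : p.1 = p.2
  · have : (Finset.univ.filter fun A : Fin N → Fin ℓ → Bool => p ∉ cut A) = ∅ := by
      apply Finset.filter_eq_empty_iff.2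
      intro A _
      simp [cut, hp]
    rw [this]; simp
  · have h1 := card_not_cut (X := Fin ℓ → Bool) hp
    have h2 : (Finset.univ.filter fun A : Fin N → Fin ℓ → Bool => p ∉ cut A).card =
        Fintype.card {A : Fin N → Fin ℓ → Bool // A p.1 = A p.2} := by
      rw [Fintype.card_subtype]
      congr 1
      ext A
      simp [cut, hp]
    rw [h2, ← h1]
    simp

open Classical in
/-- a pair of small sets of arcs is usually uncut -/
theorem card_bad {N ℓ : ℕ} (F F' : Finset (Fin N × Fin N)) :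
    2 ^ ℓ * (Finset.univ.filter fun ω : (Fin N → Fin ℓ → Bool) × (Fin N → Fin ℓ → Bool) =>
      ¬ ((F : Set (Fin N × Fin N)) ⊆ cut ω.1 ∧ (F' : Set (Fin N × Fin N)) ⊆ cut ω.2)).card ≤
      (F.card + F'.card) *
        Fintype.card ((Fin N → Fin ℓ → Bool) × (Fin N → Fin ℓ → Bool)) := by
  set Ω := (Fin N → Fin ℓ → Bool) with hΩ
  have hsub : (Finset.univ.filter fun ω : Ω × Ω =>
      ¬ ((F : Set (Fin N × Fin N)) ⊆ cut ω.1 ∧ (F' : Set (Fin N × Fin N)) ⊆ cut ω.2)) ⊆
      (F.biUnion fun p => (Finset.univ.filter fun A : Ω => p ∉ cut A) ×ˢ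
        (Finset.univ : Finset Ω)) ∪
      (F'.biUnion fun p => (Finset.univ : Finset Ω) ×ˢ
        (Finset.univ.filter fun A : Ω => p ∉ cut A)) := by
    intro ω hω
    simp only [Finset.mem_filter, Finset.mem_univ, true_and, not_and_or, Set.not_subset] at hω
    rw [Finset.mem_union]
    rcases hω with ⟨p, hp, hp'⟩ | ⟨p, hp, hp'⟩
    · left
      exact Finset.mem_biUnion.2 ⟨p, hp, Finset.mem_product.2 ⟨by simpa using hp', by simp⟩⟩
    · right
      exact Finset.mem_biUnion.2 ⟨p, hp, Finset.mem_product.2 ⟨by simp, by simpa using hp'⟩⟩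
  have h1 : ∀ p, 2 ^ ℓ * ((Finset.univ.filter fun A : Ω => p ∉ cut A) ×ˢ
      (Finset.univ : Finset Ω)).card ≤ Fintype.card (Ω × Ω) := by
    intro p
    rw [Finset.card_product, Fintype.card_prod, ← mul_assoc]
    exact Nat.mul_le_mul (card_bad_one p) (le_of_eq Finset.card_univ)
  have h2 : ∀ p, 2 ^ ℓ * ((Finset.univ : Finset Ω) ×ˢ
      (Finset.univ.filter fun A : Ω => p ∉ cut A)).card ≤ Fintype.card (Ω × Ω) := by
    intro p
    rw [Finset.card_product, Fintype.card_prod, mul_comm (Finset.card _), ← mul_assoc]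
    exact Nat.mul_le_mul (card_bad_one p) (le_of_eq Finset.card_univ)
  calc 2 ^ ℓ * _ ≤ 2 ^ ℓ * (_ : Finset (Ω × Ω)).card :=
        Nat.mul_le_mul_left _ (Finset.card_le_card hsub)
    _ ≤ 2 ^ ℓ * ((F.biUnion fun p => (Finset.univ.filter fun A : Ω => p ∉ cut A) ×ˢ
        (Finset.univ : Finset Ω)).card + (F'.biUnion fun p => (Finset.univ : Finset Ω) ×ˢ
        (Finset.univ.filter fun A : Ω => p ∉ cut A)).card) :=
        Nat.mul_le_mul_left _ (Finset.card_union_le _ _)
    _ ≤ 2 ^ ℓ * ((∑ p ∈ F, ((Finset.univ.filter fun A : Ω => p ∉ cut A) ×ˢ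
        (Finset.univ : Finset Ω)).card) + (∑ p ∈ F', ((Finset.univ : Finset Ω) ×ˢ
        (Finset.univ.filter fun A : Ω => p ∉ cut A)).card)) :=
        Nat.mul_le_mul_left _ (add_le_add Finset.card_biUnion_le Finset.card_biUnion_le)
    _ = (∑ p ∈ F, 2 ^ ℓ * ((Finset.univ.filter fun A : Ω => p ∉ cut A) ×ˢ
        (Finset.univ : Finset Ω)).card) + (∑ p ∈ F', 2 ^ ℓ * ((Finset.univ : Finset Ω) ×ˢ
        (Finset.univ.filter fun A : Ω => p ∉ cut A)).card) := by
        rw [mul_add, Finset.mul_sum, Finset.mul_sum]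
    _ ≤ (∑ _p ∈ F, Fintype.card (Ω × Ω)) + (∑ _p ∈ F', Fintype.card (Ω × Ω)) :=
        add_le_add (Finset.sum_le_sum fun p _ => h1 p) (Finset.sum_le_sum fun p _ => h2 p)
    _ = (F.card + F'.card) * Fintype.card (Ω × Ω) := by
        simp [add_mul]

/-- the subgraph induced by a nonempty set of vertices -/
noncomputable def FinGraph.induce (X : FinGraph) (S : Set X.V) (hS : S.Nonempty) : FinGraph :=
  { V := S
    fin := Fintype.ofFinite S
    ne := hS.to_subtype
    G := X.G.induce S }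

/-- The product `P` is hereditary with supports of size at most `r`: every vertex `w` of `P X Y`
has supports `s w ⊆ V(X)` and `s' w ⊆ V(Y)` with at most `r (|X| + |Y|)` elements each, and
for all nonempty `S ⊆ V(X)`, `S' ⊆ V(Y)` the subgraph of `P X Y` induced by the vertices
supported in `S` and `S'` has a homomorphism to `P (X[S]) (Y[S'])`. -/
def Hereditary (r : ℕ → ℕ) (P : FinGraph → FinGraph → FinGraph) : Prop :=
  ∀ X Y : FinGraph, ∃ (s : (P X Y).V → Finset X.V) (s' : (P X Y).V → Finset Y.V),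
    (∀ w, (s w).card ≤ r (Fintype.card X.V + Fintype.card Y.V) ∧
      (s' w).card ≤ r (Fintype.card X.V + Fintype.card Y.V)) ∧
    ∀ (S : Set X.V) (S' : Set Y.V) (hS : S.Nonempty) (hS' : S'.Nonempty),
      Nonempty ((P X Y).G.induce {w | (s w : Set X.V) ⊆ S ∧ (s' w : Set Y.V) ⊆ S'} →g
        (P (X.induce S hS) (Y.induce S' hS')).G)

/-- `P X Y` has at most `M (|X| + |Y|)` vertices -/
def SizeBound (M : ℕ → ℕ) (P : FinGraph → FinGraph → FinGraph) : Prop :=
  ∀ X Y : FinGraph, Fintype.card (P X Y).V ≤ M (Fintype.card X.V + Fintype.card Y.V)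

/-- the arc graph as a finite graph with `4 ^ s` vertices -/
def arcX (s : ℕ) : FinGraph where
  V := Fin (2 ^ s) × Fin (2 ^ s)
  ne := ⟨(⟨0, by positivity⟩, ⟨0, by positivity⟩)⟩
  G := arcG (2 ^ s)

theorem le_chi_arcX (s : ℕ) : s ≤ (arcX s).chi :=
  FinGraph.le_chi fun m hm => (Nat.pow_le_pow_iff_right (by norm_num)).1 (arcG_lower hm)

theorem cut_nonempty (s ℓ : ℕ) (A : Fin (2 ^ s) → Fin ℓ → Bool) : (cut A).Nonempty :=
  ⟨(⟨0, by positivity⟩, ⟨0, by positivity⟩), fun h => absurd rfl h⟩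

theorem chi_cut_le (s ℓ : ℕ) (A : Fin (2 ^ s) → Fin (ℓ + 1) → Bool) :
    ((arcX s).induce (cut A) (cut_nonempty s _ A)).chi ≤ 2 * (ℓ + 1) := by
  obtain ⟨f, hf⟩ := exists_cut_colour A
  refine FinGraph.chi_le ?_
  let C : (((arcX s).induce (cut A) (cut_nonempty s _ A)).G).Coloring (Fin (ℓ + 1) × Bool) :=
    SimpleGraph.Coloring.mk (fun p => f p.1) (fun {p q} hpq => hf p.1 p.2 q.1 q.2 hpq)
  have := C.colorable
  simpa [mul_comm] using this

/-- The main estimate. -/
theorem chi_product_le {P : FinGraph → FinGraph → FinGraph} {r : ℕ → ℕ} (hP : Hereditary r P)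
    (hup : ∀ X Y, (P X Y).chi ≤ X.chi * Y.chi) (s ℓ : ℕ)
    (hℓ : 4 * r (Fintype.card (arcX s).V + Fintype.card (arcX s).V) ≤ 2 ^ (ℓ + 1)) :
    (P (arcX s) (arcX s)).chi ≤
      (Nat.log 2 (Fintype.card (P (arcX s) (arcX s)).V) + 1) * (2 * (ℓ + 1)) ^ 2 := by
  classical
  set X := arcX s with hX
  obtain ⟨u, u', hu, hind⟩ := hP X X
  let Ω := (Fin (2 ^ s) → Fin (ℓ + 1) → Bool) × (Fin (2 ^ s) → Fin (ℓ + 1) → Bool)
  let good : (P X X).V → Ω → Prop := fun w ω =>
    (u w : Set X.V) ⊆ cut ω.1 ∧ (u' w : Set X.V) ⊆ cut ω.2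
  have hhalf : ∀ w, 2 * (Finset.univ.filter fun ω => ¬ good w ω).card ≤ Fintype.card Ω := by
    intro w
    have h1 := card_bad (ℓ := ℓ + 1) (u w) (u' w)
    have h2 := hu w
    set bad := (Finset.univ.filter fun ω : Ω => ¬ good w ω).card with hbad
    have h1' : 2 ^ (ℓ + 1) * bad ≤ ((u w).card + (u' w).card) * Fintype.card Ω := h1
    have h3 : 2 ^ (ℓ + 1) * (2 * bad) ≤ 2 ^ (ℓ + 1) * Fintype.card Ω := by
      calc 2 ^ (ℓ + 1) * (2 * bad) = 2 * (2 ^ (ℓ + 1) * bad) := by ring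
        _ ≤ 2 * (((u w).card + (u' w).card) * Fintype.card Ω) := Nat.mul_le_mul_left _ h1'
        _ = (2 * ((u w).card + (u' w).card)) * Fintype.card Ω := by ring
        _ ≤ 2 ^ (ℓ + 1) * Fintype.card Ω := by
            apply Nat.mul_le_mul_right
            refine le_trans ?_ hℓ
            have := h2.1
            have := h2.2
            omega
    exact Nat.le_of_mul_le_mul_left h3 (by positivity)
  obtain ⟨ω, hω⟩ := exists_cover good hhalf
    (Nat.log 2 (Fintype.card (P X X).V) + 1) (Nat.lt_pow_succ_log_self (by norm_num) _)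
  refine FinGraph.chi_le (colorable_of_cover (P X X).G (fun t => {w | good w (ω t)}) ?_ hω)
  intro t
  obtain ⟨φ⟩ := hind (cut (ω t).1) (cut (ω t).2) (cut_nonempty s _ _) (cut_nonempty s _ _)
  refine SimpleGraph.Colorable.of_hom φ ?_
  refine (FinGraph.colorable _).mono ((hup _ _).trans ?_)
  rw [sq]
  exact Nat.mul_le_mul (chi_cut_le s ℓ _) (chi_cut_le s ℓ _)

end Pool.Agent.GProd
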