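import Pool.Agent.GProd.Pebble

/-!
# Automorphism-invariant graph products of bounded arity

The main argument of this file (colouring tuples by an injective pattern and producing cliques by
permutations) is due to helper28.
-/

namespace Pool.Agent.GProd

/-- A representation of arity `d` with `t` tags: vertices are represented by those tagged
`d`-tuples of vertices of the two factors which satisfy `D`, and `E` describes adjacency. -/
structure Rep (t d : ℕ) where
  D : ∀ X Y : FinGraph, Fin t → (Fin d → Both X Y) → Prop
  E : ∀ X Y : FinGraph, Fin t → (Fin d → Both X Y) → Fin t → (Fin d → Both X Y) → Prop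

/-- `D` and `E` are invariant under the automorphisms of the two factors. -/
def Rep.AutInvariant {t d : ℕ} (R : Rep t d) : Prop :=
  ∀ (X Y : FinGraph) (e : X.G ≃g X.G) (e' : Y.G ≃g Y.G),
    (∀ (i : Fin t) (a : Fin d → Both X Y),
      R.D X Y i a ↔ R.D X Y i (fun j => Sum.map e e' (a j))) ∧
    ∀ (i : Fin t) (a : Fin d → Both X Y) (i' : Fin t) (a' : Fin d → Both X Y),
      R.E X Y i a i' a' ↔
        R.E X Y i (fun j => Sum.map e e' (a j)) i' (fun j => Sum.map e e' (a' j))

/-- The product `P` is given by the representation: every vertex of `P X Y` has a representative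
(possibly several) and two vertices are adjacent iff `E` holds for their representatives. -/
def Rep.Defines {t d : ℕ} (R : Rep t d) (P : FinGraph → FinGraph → FinGraph) : Prop :=
  ∀ X Y : FinGraph, ∃ π : {z : Fin t × (Fin d → Both X Y) // R.D X Y z.1 z.2} → (P X Y).V,
    Function.Surjective π ∧
      ∀ z z', (P X Y).G.Adj (π z) (π z') ↔ R.E X Y z.1.1 z.1.2 z'.1.1 z'.1.2

/-- `P` is an automorphism-invariant product of bounded arity. -/
def InvariantProduct (P : FinGraph → FinGraph → FinGraph) : Prop :=
  ∃ (t d : ℕ) (R : Rep t d), R.AutInvariant ∧ R.Defines P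

/-! ### Permutations of the points act on the arc graph -/

/-- the automorphism of the arc graph given by a permutation -/
def arcAut {N : ℕ} (g : Equiv.Perm (Fin N)) : arcG N ≃g arcG N where
  toEquiv := Equiv.prodCongr g g
  map_rel_iff' := by
    intro p q
    simp [arcG]

variable {N d : ℕ}

/-- tuples of arcs in the two factors from sides and points -/
def mkTup (σ : Fin d → Bool) (u : Fin d × Bool → Fin N) :
    Fin d → (Fin N × Fin N) ⊕ (Fin N × Fin N) := fun j =>
  if σ j then .inl (u (j, false), u (j, true)) else .inr (u (j, false), u (j, true))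

/-- the points of a tuple -/
def ptTup (x : Fin d → (Fin N × Fin N) ⊕ (Fin N × Fin N)) : Fin d × Bool → Fin N := fun p =>
  match x p.1 with
  | .inl q => if p.2 then q.2 else q.1
  | .inr q => if p.2 then q.2 else q.1

theorem mkTup_ptTup (x : Fin d → (Fin N × Fin N) ⊕ (Fin N × Fin N)) :
    mkTup (fun j => (x j).isLeft) (ptTup x) = x := by
  funext j
  unfold mkTup ptTup
  rcases h : x j with q | q <;> simp [h]

theorem map_mkTup (g : Equiv.Perm (Fin N)) (σ : Fin d → Bool) (u : Fin d × Bool → Fin N) :
    (fun j => Sum.map (arcAut g) (arcAut g) (mkTup σ u j)) = mkTup σ (g ∘ u) := by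
  funext j
  unfold mkTup
  by_cases h : σ j = true
  · rw [if_pos h, if_pos h]; rfl
  · rw [if_neg h, if_neg h]; rfl

/-- extension of a partial injection to a permutation -/
theorem exists_perm {ι : Type} [Fintype ι] (u w : ι → Fin N)
    (h : ∀ p q, u p = u q ↔ w p = w q) : ∃ g : Equiv.Perm (Fin N), ∀ p, g (u p) = w p := by
  classical
  have hchoose : ∀ x : Set.range u, ∃ p, u p = x := fun x => x.2
  choose ρ hρ using hchoose
  have hg : Function.Injective (fun x : Set.range u => w (ρ x)) := fun x y hxy =>
    Subtype.ext (by rw [← hρ x, ← hρ y]; exact (h _ _).2 hxy)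
  obtain ⟨g, hg'⟩ := Equiv.Perm.exists_extending_pair (α := Set.range u)
    (fun x => (x : Fin N)) (fun x => w (ρ x)) Subtype.val_injective hg
  refine ⟨g, fun p => ?_⟩
  have h1 := hg' ⟨u p, p, rfl⟩
  rw [h1]
  exact (h _ _).1 (hρ ⟨u p, p, rfl⟩)

/-! ### Separating families -/

theorem exists_separating (N d s : ℕ) (hN : N = 2 ^ s) (M : ℕ) (hM : M = 8 * d ^ 2 + 1) :
    ∃ f : Fin (2 * d * s + 1) → (Fin N → Fin M),
      ∀ u : Fin d × Bool → Fin N, ∃ r, ∀ p q, f r (u p) = f r (u q) → u p = u q := by
  classical
  subst hN
  have hMpos : 0 < M := by omega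
  have : Nonempty (Fin M) := ⟨⟨0, hMpos⟩⟩
  let good : (Fin d × Bool → Fin (2 ^ s)) → (Fin (2 ^ s) → Fin M) → Prop := fun u f =>
    ∀ p q, f (u p) = f (u q) → u p = u q
  refine exists_cover (W := Fin d × Bool → Fin (2 ^ s)) (Ω := Fin (2 ^ s) → Fin M) good ?_
    (2 * d * s + 1) ?_
  · intro u
    have hsub : (Finset.univ.filter fun f : Fin (2 ^ s) → Fin M => ¬ good u f) ⊆
        (Finset.univ : Finset ((Fin d × Bool) × (Fin d × Bool))).biUnion fun pq =>
          if u pq.1 = u pq.2 then ∅ else
            Finset.univ.filter fun f : Fin (2 ^ s) → Fin M => f (u pq.1) = f (u pq.2) := by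
      intro f hf
      simp only [good, Finset.mem_filter, Finset.mem_univ, true_and, not_forall] at hf
      obtain ⟨p, q, h1, h2⟩ := hf
      refine Finset.mem_biUnion.2 ⟨(p, q), Finset.mem_univ _, ?_⟩
      rw [if_neg h2]
      simpa using h1
    have hone : ∀ pq : (Fin d × Bool) × (Fin d × Bool), M * (if u pq.1 = u pq.2 then ∅ else
            Finset.univ.filter fun f : Fin (2 ^ s) → Fin M => f (u pq.1) = f (u pq.2)).card ≤
          Fintype.card (Fin (2 ^ s) → Fin M) := by
      intro pq
      by_cases h : u pq.1 = u pq.2
      · rw [if_pos h]; simp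
      · rw [if_neg h]
        have h1 := card_not_cut (X := Fin M) h
        rw [Fintype.card_subtype, Fintype.card_fin] at h1
        exact h1.le
    have hcard : Fintype.card ((Fin d × Bool) × (Fin d × Bool)) = (2 * d) ^ 2 := by
      simp only [Fintype.card_prod, Fintype.card_fin, Fintype.card_bool]; ring
    have hM2 : M * (2 * (Finset.univ.filter fun f : Fin (2 ^ s) → Fin M => ¬ good u f).card) ≤
        M * Fintype.card (Fin (2 ^ s) → Fin M) := by
      calc M * (2 * (Finset.univ.filter fun f : Fin (2 ^ s) → Fin M => ¬ good u f).card)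
          ≤ M * (2 * ∑ pq : (Fin d × Bool) × (Fin d × Bool), (if u pq.1 = u pq.2 then ∅ else
            Finset.univ.filter fun f : Fin (2 ^ s) → Fin M => f (u pq.1) = f (u pq.2)).card) := by
            apply Nat.mul_le_mul_left
            apply Nat.mul_le_mul_left
            exact (Finset.card_le_card hsub).trans Finset.card_biUnion_le
        _ = 2 * ∑ pq : (Fin d × Bool) × (Fin d × Bool), M * (if u pq.1 = u pq.2 then ∅ else
            Finset.univ.filter fun f : Fin (2 ^ s) → Fin M => f (u pq.1) = f (u pq.2)).card := by
            rw [Finset.mul_sum, Finset.mul_sum, Finset.mul_sum]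
            refine Finset.sum_congr rfl fun pq _ => ?_
            ring
        _ ≤ 2 * ∑ _pq : (Fin d × Bool) × (Fin d × Bool), Fintype.card (Fin (2 ^ s) → Fin M) :=
            Nat.mul_le_mul_left _ (Finset.sum_le_sum fun pq _ => hone pq)
        _ = (2 * (2 * d) ^ 2) * Fintype.card (Fin (2 ^ s) → Fin M) := by
            rw [Finset.sum_const, Finset.card_univ, hcard, smul_eq_mul]; ring
        _ ≤ M * Fintype.card (Fin (2 ^ s) → Fin M) := by
            apply Nat.mul_le_mul_right
            rw [hM]
            nlinarith
    exact Nat.le_of_mul_le_mul_left hM2 hMpos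
  · rw [Fintype.card_fun, Fintype.card_prod, Fintype.card_fin, Fintype.card_fin,
      Fintype.card_bool, ← pow_mul]
    apply Nat.pow_lt_pow_right (by norm_num)
    have : s * (d * 2) = 2 * d * s := by ring
    omega

/-! ### Cliques from one edge inside a colour class -/

/-- Two point tuples with the same equality pattern whose common points are in the same positions:
there are arbitrarily many further tuples such that every ordered pair of them is the
image of the given pair under a permutation. -/
theorem exists_tuples {K : ℕ} (u v : Fin d × Bool → Fin N)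
    (h1 : ∀ p q, u p = u q ↔ v p = v q) (h2 : ∀ p q, u p = v q → u p = v p)
    (hN : K * (d * 2) + 2 * (d * 2) ≤ N) :
    ∃ w : Fin K → (Fin d × Bool → Fin N), ∀ i j, i ≠ j → ∃ g : Equiv.Perm (Fin N),
      g ∘ u = w i ∧ g ∘ v = w j := by
  classical
  -- fresh points
  set S : Finset (Fin N) := Finset.univ.image u with hS
  have hScard : S.card ≤ d * 2 := by
    refine (Finset.card_image_le).trans ?_
    rw [Finset.card_univ, Fintype.card_prod, Fintype.card_fin, Fintype.card_bool]
  have hfresh : Fintype.card (Fin K × (Fin d × Bool)) ≤ Fintype.card {x : Fin N // x ∉ S} := by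
    rw [Fintype.card_prod, Fintype.card_prod, Fintype.card_fin, Fintype.card_fin,
      Fintype.card_bool]
    have h3 : Fintype.card {x : Fin N // x ∉ S} = N - S.card := by
      rw [Fintype.card_subtype_compl, Fintype.card_coe, Fintype.card_fin]
    rw [h3]
    omega
  obtain ⟨F⟩ := Function.Embedding.nonempty_of_card_le hfresh
  -- canonical positions
  have hρ : ∀ x : Fin N, x ∈ S → ∃ p, u p = x := by
    intro x hx
    obtain ⟨p, _, hp⟩ := Finset.mem_image.1 hx
    exact ⟨p, hp⟩
  have huS : ∀ p, u p ∈ S := fun p => Finset.mem_image_of_mem _ (Finset.mem_univ _)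
  let ρ : Fin d × Bool → Fin d × Bool := fun p => (hρ (u p) (huS p)).choose
  have hρu : ∀ p, u (ρ p) = u p := fun p => (hρ (u p) (huS p)).choose_spec
  have hρeq : ∀ p q, u p = u q → ρ p = ρ q := by
    intro p q hpq
    simp only [ρ]
    congr 1
    funext x
    rw [hpq]
  refine ⟨fun i p => if u p = v p then u p else F (i, ρ p), fun i j hij => ?_⟩
  -- the combined tuples
  have hw : ∀ k : Fin K, ∀ p q : Fin d × Bool, (u p = u q ↔
      (if u p = v p then u p else (F (k, ρ p) : Fin N)) =
        (if u q = v q then u q else (F (k, ρ q) : Fin N))) := by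
    intro k p q
    by_cases hp : u p = v p
    · by_cases hq : u q = v q
      · rw [if_pos hp, if_pos hq]
      · rw [if_pos hp, if_neg hq]
        constructor
        · intro h
          exact absurd (h ▸ h2 q p (by rw [← h, hp])) hq
        · intro h
          exact absurd (h ▸ huS p) (F (k, ρ q)).2
    · by_cases hq : u q = v q
      · rw [if_neg hp, if_pos hq]
        constructor
        · intro h
          exact absurd (h2 p q (by rw [h, hq])) hp
        · intro h
          exact absurd (h ▸ huS q) (F (k, ρ p)).2
      · rw [if_neg hp, if_neg hq]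
        constructor
        · intro h; rw [hρeq p q h]
        · intro h
          have h3 := F.injective (Subtype.ext h)
          have h4 : ρ p = ρ q := congrArg Prod.snd h3
          rw [← hρu p, ← hρu q, h4]
  obtain ⟨g, hg⟩ := exists_perm (ι := (Fin d × Bool) ⊕ (Fin d × Bool)) (Sum.elim u v)
    (Sum.elim (fun p => if u p = v p then u p else (F (i, ρ p) : Fin N))
      (fun p => if u p = v p then u p else (F (j, ρ p) : Fin N))) (by
    rintro (p | p) (q | q)
    · exact hw i p q
    · simp only [Sum.elim_inl, Sum.elim_inr]
      constructor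
      · intro h
        have hp : u p = v p := h2 p q h
        have hpq : u p = u q := (h1 p q).2 (hp ▸ h)
        have hq : u q = v q := by rw [← hpq, h]
        rw [if_pos hp, if_pos hq, hpq]
      · intro h
        by_cases hp : u p = v p
        · by_cases hq : u q = v q
          · rw [if_pos hp, if_pos hq] at h
            rw [h, hq]
          · rw [if_pos hp, if_neg hq] at h
            exact absurd (h ▸ huS p) (F (j, ρ q)).2
        · by_cases hq : u q = v q
          · rw [if_neg hp, if_pos hq] at h
            exact absurd (h ▸ huS q) (F (i, ρ p)).2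
          · rw [if_neg hp, if_neg hq] at h
            have h3 := F.injective (Subtype.ext h)
            exact absurd (congrArg Prod.fst h3) hij
    · simp only [Sum.elim_inl, Sum.elim_inr]
      constructor
      · intro h
        have hq : u q = v q := h2 q p h.symm
        have hpq : u p = u q := (h1 p q).2 (by rw [h, hq])
        have hp : u p = v p := by rw [hpq, h]
        rw [if_pos hp, if_pos hq, hpq]
      · intro h
        by_cases hp : u p = v p
        · by_cases hq : u q = v q
          · rw [if_pos hp, if_pos hq] at h
            rw [← hp, h]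
          · rw [if_pos hp, if_neg hq] at h
            exact absurd (h ▸ huS p) (F (i, ρ q)).2
        · by_cases hq : u q = v q
          · rw [if_neg hp, if_pos hq] at h
            exact absurd (h ▸ huS q) (F (j, ρ p)).2
          · rw [if_neg hp, if_neg hq] at h
            have h3 := F.injective (Subtype.ext h)
            exact absurd (congrArg Prod.fst h3).symm hij
    · simp only [Sum.elim_inr]
      rw [← h1]
      exact hw j p q)
  exact ⟨g, funext fun p => hg (Sum.inl p), funext fun p => hg (Sum.inr p)⟩

end Pool.Agent.GProd
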