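import Pool.Agent.GProd.Hered

/-!
# Local graph products
-/

namespace Pool.Agent.GProd

/-- If every point is good for all but a fraction `2 ^ (-j)` of the choices, few choices
suffice. -/
theorem exists_cover_pow {W Ω : Type} [Fintype W] [Fintype Ω] [Nonempty Ω]
    (good : W → Ω → Prop) [∀ w, DecidablePred fun ω => ¬ good w ω] (j : ℕ)
    (h : ∀ w, 2 ^ j * (Finset.univ.filter fun ω => ¬ good w ω).card ≤ Fintype.card Ω)
    (T : ℕ) (hT : Fintype.card W < (2 ^ j) ^ T) :
    ∃ ω : Fin T → Ω, ∀ w, ∃ t, good w (ω t) := by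
  classical
  have key : ∀ T : ℕ, ∃ ω : Fin T → Ω,
      (2 ^ j) ^ T * (Finset.univ.filter fun w : W => ∀ t, ¬ good w (ω t)).card ≤
        Fintype.card W := by
    intro T
    induction T with
    | zero => exact ⟨Fin.elim0, by simp⟩
    | succ T ih =>
      obtain ⟨ω, hω⟩ := ih
      set U := Finset.univ.filter fun w : W => ∀ t, ¬ good w (ω t) with hU
      have hsum : ∑ x : Ω, 2 ^ j * (U.filter fun w => ¬ good w x).card ≤ ∑ _x : Ω, U.card := by
        rw [← Finset.mul_sum]
        have : ∑ x : Ω, (U.filter fun w => ¬ good w x).card =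
            ∑ w ∈ U, (Finset.univ.filter fun x : Ω => ¬ good w x).card := by
          simp only [Finset.card_filter]
          exact Finset.sum_comm
        rw [this, Finset.mul_sum]
        calc ∑ w ∈ U, 2 ^ j * (Finset.univ.filter fun x : Ω => ¬ good w x).card
            ≤ ∑ _w ∈ U, Fintype.card Ω := Finset.sum_le_sum fun w _ => h w
          _ = ∑ _x : Ω, U.card := by simp [mul_comm]
      obtain ⟨x, _, hx⟩ := Finset.exists_le_of_sum_le Finset.univ_nonempty hsum
      refine ⟨Fin.snoc ω x, ?_⟩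
      have hsub : (Finset.univ.filter fun w : W => ∀ t, ¬ good w
          ((Fin.snoc ω x : Fin (T + 1) → Ω) t)) ⊆ U.filter fun w => ¬ good w x := by
        intro w hw
        simp only [Finset.mem_filter, Finset.mem_univ, true_and, hU] at hw ⊢
        refine ⟨fun t => ?_, ?_⟩
        · have := hw (Fin.castSucc t)
          rwa [Fin.snoc_castSucc] at this
        · have := hw (Fin.last T)
          rwa [Fin.snoc_last] at this
      calc (2 ^ j) ^ (T + 1) * _ ≤ (2 ^ j) ^ (T + 1) * (U.filter fun w => ¬ good w x).card :=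
            Nat.mul_le_mul_left _ (Finset.card_le_card hsub)
        _ = (2 ^ j) ^ T * (2 ^ j * (U.filter fun w => ¬ good w x).card) := by ring
        _ ≤ (2 ^ j) ^ T * U.card := Nat.mul_le_mul_left _ hx
        _ ≤ Fintype.card W := hω
  obtain ⟨ω, hω⟩ := key T
  refine ⟨ω, fun w => ?_⟩
  by_contra hcon
  push Not at hcon
  have h1 : 0 < (Finset.univ.filter fun w : W => ∀ t, ¬ good w (ω t)).card :=
    Finset.card_pos.2 ⟨w, by simpa using hcon⟩
  have h2 : (2 ^ j) ^ T * 1 ≤
      (2 ^ j) ^ T * (Finset.univ.filter fun w : W => ∀ t, ¬ good w (ω t)).card :=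
    Nat.mul_le_mul_left _ h1
  omega

/-- The product `P` is local with supports of size at most `r`: every vertex `w` of `P X Y` has
supports `s w ⊆ V(X)` and `s' w ⊆ V(Y)` with at most `r (|X| + |Y|)` elements each, such that
for all nonempty `S ⊆ V(X)`, `S' ⊆ V(Y)` the subgraph of `P X Y` induced by the vertices
supported in `S` and `S'` has a homomorphism to `P X₁ Y₁` for some graphs `X₁`, `Y₁` with
`χ(X₁) ≤ χ(X[S])` and `χ(Y₁) ≤ χ(Y[S'])`. -/
def LocalProd (r : ℕ → ℕ) (P : FinGraph → FinGraph → FinGraph) : Prop :=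
  ∀ X Y : FinGraph, ∃ (s : (P X Y).V → Finset X.V) (s' : (P X Y).V → Finset Y.V),
    (∀ w, (s w).card ≤ r (Fintype.card X.V + Fintype.card Y.V) ∧
      (s' w).card ≤ r (Fintype.card X.V + Fintype.card Y.V)) ∧
    ∀ (S : Set X.V) (S' : Set Y.V) (hS : S.Nonempty) (hS' : S'.Nonempty),
      ∃ X₁ Y₁ : FinGraph, X₁.chi ≤ (X.induce S hS).chi ∧ Y₁.chi ≤ (Y.induce S' hS').chi ∧
        Nonempty ((P X Y).G.induce {w | (s w : Set X.V) ⊆ S ∧ (s' w : Set Y.V) ⊆ S'} →g
          (P X₁ Y₁).G)

/-- hereditary products are local -/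
theorem Hereditary.local {r : ℕ → ℕ} {P : FinGraph → FinGraph → FinGraph}
    (h : Hereditary r P) : LocalProd r P := by
  intro X Y
  obtain ⟨s, s', h1, h2⟩ := h X Y
  exact ⟨s, s', h1, fun S S' hS hS' =>
    ⟨X.induce S hS, Y.induce S' hS', le_refl _, le_refl _, h2 S S' hS hS'⟩⟩

/-- The product `P` reads at most `q` bits per vertex: for every vertex `w` of `P X Y` there are
sets of at most `q (|X| + |Y|)` pairs of vertices of `X` and of `Y`, such that for all graphs
`G₁`, `G₂` on the vertex sets of `X` and `Y` the vertices `w` of `P X Y` on whose pairs `G₁`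
agrees with `X` and `G₂` agrees with `Y` induce a subgraph which has a homomorphism to the product
of these graphs. -/
def BitLocal (q : ℕ → ℕ) (P : FinGraph → FinGraph → FinGraph) : Prop :=
  ∀ X Y : FinGraph, ∃ (s : (P X Y).V → Finset (X.V × X.V)) (s' : (P X Y).V → Finset (Y.V × Y.V)),
    (∀ w, (s w).card ≤ q (Fintype.card X.V + Fintype.card Y.V) ∧
      (s' w).card ≤ q (Fintype.card X.V + Fintype.card Y.V)) ∧
    ∀ (G₁ : SimpleGraph X.V) (G₂ : SimpleGraph Y.V),
      Nonempty ((P X Y).G.induce {w | (∀ e ∈ s w, X.G.Adj e.1 e.2 ↔ G₁.Adj e.1 e.2) ∧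
        ∀ e ∈ s' w, Y.G.Adj e.1 e.2 ↔ G₂.Adj e.1 e.2} →g
          (P { V := X.V, G := G₁ } { V := Y.V, G := G₂ }).G)

/-- the graph `X` without the edges which are not contained in `S` -/
def keep (X : FinGraph) (S : Set X.V) : SimpleGraph X.V where
  Adj x y := X.G.Adj x y ∧ x ∈ S ∧ y ∈ S
  symm := ⟨fun _ _ h => ⟨h.1.symm, h.2.2, h.2.1⟩⟩
  loopless := ⟨fun _ h => h.1.ne rfl⟩

theorem chi_keep_le (X : FinGraph) (S : Set X.V) (hS : S.Nonempty) :
    FinGraph.chi { V := X.V, G := keep X S } ≤ (X.induce S hS).chi := by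
  classical
  obtain ⟨x₀, hx₀⟩ := hS
  obtain ⟨f⟩ := (X.induce S ⟨x₀, hx₀⟩).colorable
  refine FinGraph.chi_le ?_
  refine ⟨SimpleGraph.Coloring.mk (fun x => if h : x ∈ S then f ⟨x, h⟩ else f ⟨x₀, hx₀⟩) ?_⟩
  rintro x y ⟨hxy, hx, hy⟩ heq
  simp only [dif_pos hx, dif_pos hy] at heq
  exact f.valid (show (X.induce S ⟨x₀, hx₀⟩).G.Adj ⟨x, hx⟩ ⟨y, hy⟩ from hxy) heq

/-- products which read few bits per vertex are local -/
theorem BitLocal.local {q : ℕ → ℕ} {P : FinGraph → FinGraph → FinGraph}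
    (h : BitLocal q P) : LocalProd (fun n => 2 * q n) P := by
  classical
  intro X Y
  obtain ⟨s, s', h1, h2⟩ := h X Y
  have hcard : ∀ {V : Type} (t : Finset (V × V)) (m : ℕ) [DecidableEq V], t.card ≤ m →
      (t.image Prod.fst ∪ t.image Prod.snd).card ≤ 2 * m := by
    intro V t m _ ht
    calc (t.image Prod.fst ∪ t.image Prod.snd).card
        ≤ (t.image Prod.fst).card + (t.image Prod.snd).card := Finset.card_union_le _ _
      _ ≤ t.card + t.card := add_le_add Finset.card_image_le Finset.card_image_le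
      _ ≤ 2 * m := by omega
  refine ⟨fun w => (s w).image Prod.fst ∪ (s w).image Prod.snd,
    fun w => (s' w).image Prod.fst ∪ (s' w).image Prod.snd,
    fun w => ⟨hcard _ _ (h1 w).1, hcard _ _ (h1 w).2⟩, fun S S' hS hS' => ?_⟩
  obtain ⟨φ⟩ := h2 (keep X S) (keep Y S')
  refine ⟨_, _, chi_keep_le X S hS, chi_keep_le Y S' hS', ⟨φ.comp ?_⟩⟩
  have key : ∀ {Z : FinGraph} (t : Finset (Z.V × Z.V)) (R : Set Z.V),
      ((t.image Prod.fst ∪ t.image Prod.snd : Finset Z.V) : Set Z.V) ⊆ R →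
      ∀ e ∈ t, Z.G.Adj e.1 e.2 ↔ (keep Z R).Adj e.1 e.2 := by
    intro Z t R ht e he
    have e1 : e.1 ∈ R := ht (by
      rw [Finset.mem_coe, Finset.mem_union]
      exact Or.inl (Finset.mem_image_of_mem _ he))
    have e2 : e.2 ∈ R := ht (by
      rw [Finset.mem_coe, Finset.mem_union]
      exact Or.inr (Finset.mem_image_of_mem _ he))
    exact ⟨fun h => ⟨h, e1, e2⟩, fun h => h.1⟩
  refine ⟨fun w => ⟨w.1, key (s w.1) S w.2.1, key (s' w.1) S' w.2.2⟩, fun h => h⟩

/-- The main estimate. -/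
theorem chi_local_le {P : FinGraph → FinGraph → FinGraph} {r : ℕ → ℕ} (hP : LocalProd r P)
    (hup : ∀ X Y, (P X Y).chi ≤ X.chi * Y.chi) (s L : ℕ)
    (hL : 2 * r (Fintype.card (arcX s).V + Fintype.card (arcX s).V) ≤ 2 ^ L) :
    (P (arcX s) (arcX s)).chi ≤
      (Nat.log 2 (Fintype.card (P (arcX s) (arcX s)).V) / (L + 1) + 1) *
        (2 * (2 * L + 1)) ^ 2 := by
  classical
  set X := arcX s with hX
  obtain ⟨u, u', hu, hind⟩ := hP X X
  let Ω := (Fin (2 ^ s) → Fin (2 * L + 1) → Bool) × (Fin (2 ^ s) → Fin (2 * L + 1) → Bool)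
  let good : (P X X).V → Ω → Prop := fun w ω =>
    (u w : Set X.V) ⊆ cut ω.1 ∧ (u' w : Set X.V) ⊆ cut ω.2
  have hbad : ∀ w, 2 ^ (L + 1) * (Finset.univ.filter fun ω => ¬ good w ω).card ≤
      Fintype.card Ω := by
    intro w
    have h1 := card_bad (ℓ := 2 * L + 1) (u w) (u' w)
    have h2 := hu w
    set bad := (Finset.univ.filter fun ω : Ω => ¬ good w ω).card with hbad
    have h1' : 2 ^ (2 * L + 1) * bad ≤ ((u w).card + (u' w).card) * Fintype.card Ω := h1
    have h3 : 2 ^ L * (2 ^ (L + 1) * bad) ≤ 2 ^ L * Fintype.card Ω := by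
      calc 2 ^ L * (2 ^ (L + 1) * bad) = 2 ^ (2 * L + 1) * bad := by ring
        _ ≤ ((u w).card + (u' w).card) * Fintype.card Ω := h1'
        _ ≤ 2 ^ L * Fintype.card Ω := by
            apply Nat.mul_le_mul_right
            refine le_trans ?_ hL
            have := h2.1
            have := h2.2
            omega
    exact Nat.le_of_mul_le_mul_left h3 (by positivity)
  obtain ⟨ω, hω⟩ := exists_cover_pow good (L + 1) hbad
    (Nat.log 2 (Fintype.card (P X X).V) / (L + 1) + 1) (by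
      rw [← pow_mul]
      refine (Nat.lt_pow_succ_log_self (by norm_num) _).trans_le
        (Nat.pow_le_pow_right (by norm_num) ?_)
      rw [Nat.succ_le_iff]
      exact Nat.lt_mul_div_succ _ (Nat.succ_pos L))
  refine FinGraph.chi_le (colorable_of_cover (P X X).G (fun t => {w | good w (ω t)}) ?_ hω)
  intro t
  obtain ⟨X₁, Y₁, h1, h2, ⟨φ⟩⟩ :=
    hind (cut (ω t).1) (cut (ω t).2) (cut_nonempty s _ _) (cut_nonempty s _ _)
  refine SimpleGraph.Colorable.of_hom φ ?_
  refine (FinGraph.colorable _).mono ((hup _ _).trans ?_)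
  rw [sq]
  exact Nat.mul_le_mul (h1.trans (chi_cut_le s (2 * L) _)) (h2.trans (chi_cut_le s (2 * L) _))

/-- the complete graph with `m + 1` vertices -/
def completeF (m : ℕ) : FinGraph where
  V := Fin (m + 1)
  G := ⊤

theorem chi_completeF (m : ℕ) : (completeF m).chi = m + 1 := by
  unfold FinGraph.chi completeF
  simp

end Pool.Agent.GProd
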