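import Pool.Agent.GProd.Ext

/-!
# Back-and-forth systems and definable graph products
-/

namespace Pool.Agent.GProd

open FirstOrder

/-- the vertices of the two factors together -/
abbrev Both (X Y : FinGraph) : Type := X.V ⊕ Y.V

/-- adjacency in the disjoint union of the two factors -/
def bothAdj (X Y : FinGraph) : Both X Y → Both X Y → Prop
  | .inl a, .inl b => X.G.Adj a b
  | .inr a, .inr b => Y.G.Adj a b
  | _, _ => False

theorem bothAdj_symm {X Y : FinGraph} {a b : Both X Y} (h : bothAdj X Y a b) :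
    bothAdj X Y b a := by
  rcases a with a | a <;> rcases b with b | b
  · exact SimpleGraph.Adj.symm (G := X.G) h
  · exact h
  · exact h
  · exact SimpleGraph.Adj.symm (G := Y.G) h

theorem bothAdj_irrefl {X Y : FinGraph} (a : Both X Y) : ¬ bothAdj X Y a a := by
  rcases a with a | a
  · exact X.G.irrefl
  · exact Y.G.irrefl

theorem bothAdj_left {X Y : FinGraph} {a b : Both X Y} (h : bothAdj X Y a b) :
    a.isLeft = b.isLeft := by
  rcases a with a | a <;> rcases b with b | b
  · rfl
  · exact h.elim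
  · exact h.elim
  · rfl

/-- `p` is (the graph of) a partial isomorphism between the pairs of graphs `(X, Y)`
and `(X', Y')`. -/
def PartialIso (X Y X' Y' : FinGraph) (p : Finset (Both X Y × Both X' Y')) : Prop :=
  ∀ q ∈ p, ∀ q' ∈ p, (q.1 = q'.1 ↔ q.2 = q'.2) ∧ q.1.isLeft = q.2.isLeft ∧
    (bothAdj X Y q.1 q'.1 ↔ bothAdj X' Y' q.2 q'.2)

open Classical in
/-- `I` is a back-and-forth system of partial isomorphisms with at most `k` pebbles. -/
structure BackForth (k : ℕ) (X Y X' Y' : FinGraph)
    (I : Set (Finset (Both X Y × Both X' Y'))) : Prop where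
  iso : ∀ p ∈ I, PartialIso X Y X' Y' p
  card : ∀ p ∈ I, p.card ≤ k
  sub : ∀ p ∈ I, ∀ q, q ⊆ p → q ∈ I
  forth : ∀ p ∈ I, p.card < k → ∀ x, ∃ y, insert (x, y) p ∈ I
  back : ∀ p ∈ I, p.card < k → ∀ y, ∃ x, insert (x, y) p ∈ I

open Classical in
/-- The tuples `a` in `(X, Y)` and `b` in `(X', Y')` are equivalent for `k` pebbles (i.e. they
satisfy the same formulas of the infinitary logic with `k` variables). -/
def PebbleEquiv (k : ℕ) {ι : Type} [Fintype ι] (X Y : FinGraph) (a : ι → Both X Y)
    (X' Y' : FinGraph) (b : ι → Both X' Y') : Prop :=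
  ∃ I, BackForth k X Y X' Y' I ∧ (Finset.univ.image fun i => (a i, b i)) ∈ I

/-- A `d`-dimensional interpretation: vertices are represented by those `d`-tuples of vertices of
the two factors which satisfy `D`, and `E` describes adjacency. -/
structure Interp (d : ℕ) where
  D : ∀ X Y : FinGraph, (Fin d → Both X Y) → Prop
  E : ∀ X Y : FinGraph, (Fin d → Both X Y) → (Fin d → Both X Y) → Prop

/-- the interpretation is invariant under `k`-pebble equivalence -/
def Interp.Invariant {d : ℕ} (k : ℕ) (I : Interp d) : Prop :=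
  (∀ (X Y X' Y' : FinGraph) (a : Fin d → Both X Y) (b : Fin d → Both X' Y'),
    PebbleEquiv k X Y a X' Y' b → (I.D X Y a ↔ I.D X' Y' b)) ∧
  (∀ (X Y X' Y' : FinGraph) (a a' : Fin d → Both X Y) (b b' : Fin d → Both X' Y'),
    PebbleEquiv k X Y (Sum.elim a a') X' Y' (Sum.elim b b') →
      (I.E X Y a a' ↔ I.E X' Y' b b'))

/-- The product `P` is defined by the interpretation: the vertices of `P X Y` are represented by
the tuples satisfying `D` (a vertex may have several representatives) and two vertices are adjacent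
iff `E` holds for their representatives. -/
def Interp.Defines {d : ℕ} (I : Interp d) (P : FinGraph → FinGraph → FinGraph) : Prop :=
  ∀ X Y : FinGraph, ∃ π : {x : Fin d → Both X Y // I.D X Y x} → (P X Y).V,
    Function.Surjective π ∧ ∀ x y, (P X Y).G.Adj (π x) (π y) ↔ I.E X Y x.1 y.1

/-- `P` is definable by a `d`-dimensional interpretation which is invariant under `k`-pebble
equivalence, for some `d` and `k ≥ 2 d`. -/
def PebbleDefinable (P : FinGraph → FinGraph → FinGraph) : Prop :=
  ∃ d k : ℕ, 2 * d ≤ k ∧ ∃ I : Interp d, I.Invariant k ∧ I.Defines P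

/-! ### Extension properties give back-and-forth systems -/

theorem ext_both {k : ℕ} {X Y : FinGraph} (hX : Ext k X) (hY : Ext k Y) (side : Bool)
    (U W : Finset (Both X Y)) (hUW : Disjoint U W) (hcard : U.card + W.card ≤ k)
    (hU : ∀ u ∈ U, u.isLeft = side) :
    ∃ x : Both X Y, x.isLeft = side ∧ x ∉ U ∧ x ∉ W ∧ (∀ u ∈ U, bothAdj X Y x u) ∧
      ∀ w ∈ W, ¬ bothAdj X Y x w := by
  classical
  cases side with
  | true =>
    obtain ⟨x, h1, h2, h3, h4⟩ := hX U.toLeft W.toLeft (by
      rw [Finset.disjoint_left] at hUW ⊢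
      intro a ha hb
      exact hUW (Finset.mem_toLeft.1 ha) (Finset.mem_toLeft.1 hb)) (by
      have := U.card_toLeft_le
      have := W.card_toLeft_le
      omega)
    refine ⟨.inl x, rfl, fun h => h1 (Finset.mem_toLeft.2 h),
      fun h => h2 (Finset.mem_toLeft.2 h), ?_, ?_⟩
    · intro u hu
      rcases u with u | u
      · exact h3 u (Finset.mem_toLeft.2 hu)
      · simpa using hU _ hu
    · intro w hw
      rcases w with w | w
      · exact h4 w (Finset.mem_toLeft.2 hw)
      · exact fun h => h
  | false =>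
    obtain ⟨x, h1, h2, h3, h4⟩ := hY U.toRight W.toRight (by
      rw [Finset.disjoint_left] at hUW ⊢
      intro a ha hb
      exact hUW (Finset.mem_toRight.1 ha) (Finset.mem_toRight.1 hb)) (by
      have := U.card_toRight_le
      have := W.card_toRight_le
      omega)
    refine ⟨.inr x, rfl, fun h => h1 (Finset.mem_toRight.2 h),
      fun h => h2 (Finset.mem_toRight.2 h), ?_, ?_⟩
    · intro u hu
      rcases u with u | u
      · simpa using hU _ hu
      · exact h3 u (Finset.mem_toRight.2 hu)
    · intro w hw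
      rcases w with w | w
      · exact fun h => h
      · exact h4 w (Finset.mem_toRight.2 hw)

open Classical in
theorem forth_of_ext {k : ℕ} {X Y X' Y' : FinGraph} (hX' : Ext k X') (hY' : Ext k Y')
    {p : Finset (Both X Y × Both X' Y')} (hp : PartialIso X Y X' Y' p) (hc : p.card < k)
    (x : Both X Y) : ∃ y, PartialIso X Y X' Y' (insert (x, y) p) ∧ (insert (x, y) p).card ≤ k := by
  by_cases hx : ∃ q ∈ p, q.1 = x
  · obtain ⟨q, hq, rfl⟩ := hx
    refine ⟨q.2, ?_, ?_⟩
    · rw [Finset.insert_eq_of_mem hq]; exact hp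
    · rw [Finset.insert_eq_of_mem hq]; exact hc.le
  · push Not at hx
    set U := (p.filter fun q => bothAdj X Y x q.1).image Prod.snd with hU
    set W := (p.filter fun q => ¬ bothAdj X Y x q.1).image Prod.snd with hW
    have hUW : Disjoint U W := by
      rw [Finset.disjoint_left]
      intro b hb hb'
      obtain ⟨q, hq, rfl⟩ := Finset.mem_image.1 hb
      obtain ⟨q', hq', h⟩ := Finset.mem_image.1 hb'
      rw [Finset.mem_filter] at hq hq'
      have := (hp q' hq'.1 q hq.1).1.2 h
      rw [this] at hq'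
      exact hq'.2 hq.2
    have hcard : U.card + W.card ≤ k := by
      have h1 : U.card ≤ (p.filter fun q => bothAdj X Y x q.1).card := Finset.card_image_le
      have h2 : W.card ≤ (p.filter fun q => ¬ bothAdj X Y x q.1).card := Finset.card_image_le
      have h3 := Finset.card_filter_add_card_filter_not (s := p) (fun q => bothAdj X Y x q.1)
      omega
    obtain ⟨y, y1, y2, y3, y4, y5⟩ := ext_both hX' hY' x.isLeft U W hUW hcard (by
      intro u hu
      obtain ⟨q, hq, rfl⟩ := Finset.mem_image.1 hu
      rw [Finset.mem_filter] at hq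
      rw [← (hp q hq.1 q hq.1).2.1]
      exact (bothAdj_left hq.2).symm)
    have hmem : ∀ q ∈ p, q.2 ∈ U ∨ q.2 ∈ W := by
      intro q hq
      by_cases h : bothAdj X Y x q.1
      · exact Or.inl (Finset.mem_image.2 ⟨q, Finset.mem_filter.2 ⟨hq, h⟩, rfl⟩)
      · exact Or.inr (Finset.mem_image.2 ⟨q, Finset.mem_filter.2 ⟨hq, h⟩, rfl⟩)
    have hadj : ∀ q ∈ p, (bothAdj X Y x q.1 ↔ bothAdj X' Y' y q.2) := by
      intro q hq
      by_cases h : bothAdj X Y x q.1
      · exact ⟨fun _ => y4 _ (Finset.mem_image.2 ⟨q, Finset.mem_filter.2 ⟨hq, h⟩, rfl⟩),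
          fun _ => h⟩
      · exact ⟨fun h' => absurd h' h, fun h' => absurd h'
          (y5 _ (Finset.mem_image.2 ⟨q, Finset.mem_filter.2 ⟨hq, h⟩, rfl⟩))⟩
    have hne : ∀ q ∈ p, y ≠ q.2 := by
      intro q hq h
      rcases hmem q hq with h1 | h1
      · rw [← h] at h1; exact y2 h1
      · rw [← h] at h1; exact y3 h1
    refine ⟨y, ?_, ?_⟩
    · intro q hq q' hq'
      rcases Finset.mem_insert.1 hq with rfl | hq
      · rcases Finset.mem_insert.1 hq' with rfl | hq'
        · exact ⟨⟨fun _ => rfl, fun _ => rfl⟩, y1.symm,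
            ⟨fun h => absurd h (bothAdj_irrefl _), fun h => absurd h (bothAdj_irrefl _)⟩⟩
        · exact ⟨⟨fun h => absurd h.symm (hx q' hq'), fun h => absurd h (hne q' hq')⟩, y1.symm,
            hadj q' hq'⟩
      · rcases Finset.mem_insert.1 hq' with rfl | hq'
        · exact ⟨⟨fun h => absurd h (hx q hq), fun h => absurd h.symm (hne q hq)⟩,
            (hp q hq q hq).2.1,
            ⟨fun h => bothAdj_symm ((hadj q hq).1 (bothAdj_symm h)),
              fun h => bothAdj_symm ((hadj q hq).2 (bothAdj_symm h))⟩⟩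
        · exact hp q hq q' hq'
    · exact (Finset.card_insert_le _ _).trans hc

open Classical in
theorem PartialIso.swap {X Y X' Y' : FinGraph} {p : Finset (Both X Y × Both X' Y')}
    (hp : PartialIso X Y X' Y' p) : PartialIso X' Y' X Y (p.image Prod.swap) := by
  intro q hq q' hq'
  obtain ⟨r, hr, rfl⟩ := Finset.mem_image.1 hq
  obtain ⟨r', hr', rfl⟩ := Finset.mem_image.1 hq'
  obtain ⟨h1, h2, h3⟩ := hp r hr r' hr'
  exact ⟨h1.symm, h2.symm, h3.symm⟩

open Classical in
/-- pairs of graphs with the `k`-extension property are linked by all partial isomorphisms -/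
theorem backForth_of_ext {k : ℕ} {X Y X' Y' : FinGraph} (hX : Ext k X) (hY : Ext k Y)
    (hX' : Ext k X') (hY' : Ext k Y') :
    BackForth k X Y X' Y' {p | PartialIso X Y X' Y' p ∧ p.card ≤ k} := by
  refine ⟨fun p hp => hp.1, fun p hp => hp.2, fun p hp q hq => ?_, fun p hp hc x => ?_,
    fun p hp hc y => ?_⟩
  · exact ⟨fun r hr r' hr' => hp.1 r (hq hr) r' (hq hr'), (Finset.card_le_card hq).trans hp.2⟩
  · obtain ⟨y, h⟩ := forth_of_ext hX' hY' hp.1 hc x
    exact ⟨y, h⟩
  · have hsw : (p.image Prod.swap).card = p.card :=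
      Finset.card_image_of_injective _ Prod.swap_injective
    obtain ⟨x, h1, h2⟩ := forth_of_ext hX hY hp.1.swap (by rw [hsw]; exact hc) y
    have h3 : (insert (y, x) (p.image Prod.swap)).image Prod.swap = insert (x, y) p := by
      rw [Finset.image_insert, Finset.image_image]
      simp
    refine ⟨x, ?_⟩
    have h4 := h1.swap
    rw [h3] at h4
    refine ⟨h4, ?_⟩
    have h5 : (insert (x, y) p).card ≤ p.card + 1 := Finset.card_insert_le _ _
    exact h5.trans hc

/-- Tuples of an induced pair of subgraphs are equivalent to themselves in the whole pair, if all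
graphs have the extension property. -/
theorem pebbleEquiv_of_emb {k : ℕ} {X Y X' Y' : FinGraph} (hX : Ext k X) (hY : Ext k Y)
    (hX' : Ext k X') (hY' : Ext k Y') (e : Both X' Y' → Both X Y) (he : Function.Injective e)
    (hl : ∀ z, (e z).isLeft = z.isLeft)
    (ha : ∀ z z', bothAdj X Y (e z) (e z') ↔ bothAdj X' Y' z z')
    {ι : Type} [Fintype ι] (hι : Fintype.card ι ≤ k) (b : ι → Both X' Y') :
    PebbleEquiv k X Y (fun i => e (b i)) X' Y' b := by
  classical
  refine ⟨_, backForth_of_ext hX hY hX' hY', ?_, ?_⟩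
  · intro q hq q' hq'
    obtain ⟨i, _, rfl⟩ := Finset.mem_image.1 hq
    obtain ⟨i', _, rfl⟩ := Finset.mem_image.1 hq'
    exact ⟨⟨fun h => he h, fun h => congrArg e h⟩, hl _, ha _ _⟩
  · exact (Finset.card_image_le).trans hι

end Pool.Agent.GProd
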